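import Pool.Agent.K1H54.NU.Stm

/-!
NU-FIRE: the inverse cascade.
-/

open Set Filter Topology MeasureTheory
open scoped ENNReal

set_option autoImplicit false

namespace Pool.Agent.K1H52.NU

open Pool.Agent.K1H54.NU

/-! ### calculus -/

theorem min_sq_deriv (y : ℝ) : HasDerivAt (fun y : ℝ => (min y 0) ^ 2) (2 * min y 0) y := by
  rcases lt_trichotomy y 0 with h | h | h
  · have h1 : HasDerivAt (fun y : ℝ => y ^ 2) (2 * y) y := by simpa using hasDerivAt_pow 2 y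
    rw [min_eq_left h.le]
    refine h1.congr_of_eventuallyEq ?_
    filter_upwards [Iio_mem_nhds h] with z hz
    rw [min_eq_left (le_of_lt hz)]
  · subst h
    rw [min_self, mul_zero, hasDerivAt_iff_isLittleO_nhds_zero]
    refine Asymptotics.IsBigO.trans_isLittleO ?_
      (Asymptotics.isLittleO_pow_id (𝕜 := ℝ) (n := 2) one_lt_two)
    refine Asymptotics.IsBigO.of_bound 1 (Eventually.of_forall fun h => ?_)
    simp only [zero_add, min_self, smul_eq_mul, mul_zero, sub_zero, one_mul, norm_pow,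
      Real.norm_eq_abs]
    have : |min h 0| ≤ |h| := by
      rcases le_total h 0 with h1 | h1
      · rw [min_eq_left h1]
      · rw [min_eq_right h1, abs_zero]; exact abs_nonneg h
    have h0 := abs_nonneg (min h 0)
    norm_num
    nlinarith [abs_nonneg h, sq_abs h, sq_abs (min h 0), abs_nonneg (min h 0)]
  · have h1 : HasDerivAt (fun _ : ℝ => (0 : ℝ)) 0 y := hasDerivAt_const _ _
    rw [min_eq_right h.le, mul_zero]
    refine h1.congr_of_eventuallyEq ?_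
    filter_upwards [Ioi_mem_nhds h] with z hz
    rw [min_eq_right (le_of_lt hz)]; norm_num

theorem mono_of {F : ℝ → ℝ} {s t : ℝ} (hc : ContinuousOn F (Icc s t))
    (hd : ∀ τ ∈ Ioo s t, ∃ D, HasDerivAt F D τ ∧ 0 ≤ D) : MonotoneOn F (Icc s t) := by
  refine monotoneOn_of_deriv_nonneg (convex_Icc s t) hc ?_ ?_
  · rw [interior_Icc]
    intro τ hτ
    obtain ⟨D, hD, -⟩ := hd τ hτ
    exact hD.differentiableAt.differentiableWithinAt
  · rw [interior_Icc]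
    intro τ hτ
    obtain ⟨D, hD, h0⟩ := hd τ hτ
    rw [hD.deriv]; exact h0

/-- positivity -/
theorem pos_lemma {J : Type} (S : Finset J) (f : ℝ) (hf : ∑ _j ∈ S, f ^ 2 = 1) (hf0 : 0 ≤ f)
    (x : ℝ → J → ℝ) (g R : ℝ → ℝ) (d : J → ℝ) (hd : ∀ j, 0 ≤ d j) (K s t : ℝ)
    (hc : ∀ j ∈ S, ContinuousOn (fun τ => x τ j) (Icc s t))
    (hx : ∀ j ∈ S, ∀ τ ∈ Ioo s t, HasDerivAt (fun τ => x τ j)
      (f * (g τ * (∑ k ∈ S, f * x τ k) + R τ) - d j * x τ j) τ)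
    (hg : ∀ τ ∈ Ioo s t, 0 ≤ g τ) (hK : ∀ τ ∈ Ioo s t, g τ ≤ K) (hR : ∀ τ ∈ Ioo s t, 0 ≤ R τ)
    (h0 : ∀ j ∈ S, 0 ≤ x s j) : ∀ τ ∈ Icc s t, ∀ j ∈ S, 0 ≤ x τ j := by
  set E : ℝ → ℝ := fun τ => ∑ j ∈ S, (min (x τ j) 0) ^ 2 with hE
  have hE0 : ∀ τ, 0 ≤ E τ := fun τ => Finset.sum_nonneg fun j _ => sq_nonneg _
  have hEc : ContinuousOn E (Icc s t) := by
    refine continuousOn_finsetSum _ fun j hj => ?_
    exact ((hc j hj).inf continuousOn_const).pow 2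
  have hEd : ∀ τ ∈ Ioo s t, ∃ D, HasDerivAt E D τ ∧ D ≤ 2 * K * E τ := by
    intro τ hτ
    refine ⟨∑ j ∈ S, (2 * min (x τ j) 0) *
      (f * (g τ * (∑ k ∈ S, f * x τ k) + R τ) - d j * x τ j), ?_, ?_⟩
    · refine HasDerivAt.fun_sum (u := S) fun j hj => ?_
      have := HasDerivAt.comp (h₂ := fun y : ℝ => (min y 0) ^ 2) τ (min_sq_deriv (x τ j))
        (hx j hj τ hτ)
      exact this
    · have h1 : ∑ k ∈ S, f * min (x τ k) 0 ≤ ∑ k ∈ S, f * x τ k :=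
        Finset.sum_le_sum fun k _ => mul_le_mul_of_nonneg_left (min_le_left _ _) hf0
      have h2 : g τ * ∑ k ∈ S, f * min (x τ k) 0 ≤ g τ * (∑ k ∈ S, f * x τ k) + R τ := by
        have := mul_le_mul_of_nonneg_left h1 (hg τ hτ)
        linarith [hR τ hτ]
      have h3 : ∀ j ∈ S, (2 * min (x τ j) 0) *
          (f * (g τ * (∑ k ∈ S, f * x τ k) + R τ) - d j * x τ j) ≤
          (2 * g τ * ∑ k ∈ S, f * min (x τ k) 0) * (f * min (x τ j) 0) := by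
        intro j _
        have h4 : min (x τ j) 0 ≤ 0 := min_le_right _ _
        have h5 : 0 ≤ min (x τ j) 0 * x τ j := by
          rcases le_total (x τ j) 0 with h | h
          · rw [min_eq_left h]; exact mul_self_nonneg _
          · rw [min_eq_right h]; simp
        have h6 : f * min (x τ j) 0 ≤ 0 := mul_nonpos_of_nonneg_of_nonpos hf0 h4
        have h7 := mul_le_mul_of_nonpos_left h2 h6
        have h8 := mul_nonneg (hd j) h5
        nlinarith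
      have h9 : (∑ k ∈ S, f * min (x τ k) 0) ^ 2 ≤ E τ := by
        have := Finset.sum_mul_sq_le_sq_mul_sq S (fun _ => f) (fun k => min (x τ k) 0)
        rw [hf, one_mul] at this
        exact this
      calc _ ≤ ∑ j ∈ S, (2 * g τ * ∑ k ∈ S, f * min (x τ k) 0) * (f * min (x τ j) 0) :=
            Finset.sum_le_sum h3
        _ = 2 * g τ * (∑ k ∈ S, f * min (x τ k) 0) ^ 2 := by rw [← Finset.mul_sum]; ring
        _ ≤ 2 * g τ * E τ := mul_le_mul_of_nonneg_left h9 (by have := hg τ hτ; linarith)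
        _ ≤ 2 * K * E τ := mul_le_mul_of_nonneg_right (by have := hK τ hτ; linarith) (hE0 τ)
  have hm : MonotoneOn (fun τ => -(E τ * Real.exp (-(2 * K) * τ))) (Icc s t) := by
    refine mono_of ?_ fun τ hτ => ?_
    · exact (hEc.mul (by fun_prop)).neg
    · obtain ⟨D, hD, h1⟩ := hEd τ hτ
      have he : HasDerivAt (fun τ : ℝ => Real.exp (-(2 * K) * τ))
          (Real.exp (-(2 * K) * τ) * (-(2 * K) * 1)) τ :=
        ((hasDerivAt_id τ).const_mul (-(2 * K))).exp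
      refine ⟨_, (hD.mul he).neg, ?_⟩
      have := mul_le_mul_of_nonneg_right h1 (Real.exp_pos (-(2 * K) * τ)).le
      nlinarith
  intro τ hτ j hj
  have hs : s ∈ Icc s t := ⟨le_rfl, hτ.1.trans hτ.2⟩
  have h1 := hm hs hτ hτ.1
  have h2 : E s = 0 := Finset.sum_eq_zero fun j hj => by rw [min_eq_right (h0 j hj)]; norm_num
  simp only [h2, zero_mul, neg_zero] at h1
  have h3 : E τ ≤ 0 := by
    by_contra h
    push Not at h
    have := mul_pos h (Real.exp_pos (-(2 * K) * τ))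
    linarith
  have h4 : (min (x τ j) 0) ^ 2 ≤ 0 :=
    (Finset.single_le_sum (f := fun j => (min (x τ j) 0) ^ 2) (fun _ _ => sq_nonneg _) hj).trans h3
  have h5 : min (x τ j) 0 = 0 := by nlinarith [sq_nonneg (min (x τ j) 0)]
  exact min_eq_right_iff.1 h5

theorem first_time {f : ℝ → ℝ} {s A : ℝ} (hs : 0 ≤ s) (hf : ContinuousOn f (Icc 0 s))
    (h0 : f 0 ≤ A) (h1 : A ≤ f s) :
    ∃ s0 ∈ Icc 0 s, f s0 = A ∧ ∀ τ ∈ Icc 0 s0, f τ ≤ A := by
  set K : Set ℝ := Icc 0 s ∩ f ⁻¹' Ici A with hK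
  have hKc : IsClosed K := hf.preimage_isClosed_of_isClosed isClosed_Icc isClosed_Ici
  have hKn : K.Nonempty := ⟨s, ⟨hs, le_rfl⟩, h1⟩
  have hKb : BddBelow K := ⟨0, fun τ hτ => hτ.1.1⟩
  have hmem : sInf K ∈ K := hKc.csInf_mem hKn hKb
  have hlt : ∀ τ, 0 ≤ τ → τ < sInf K → f τ < A := by
    intro τ h0 hτ
    by_contra h
    push Not at h
    exact absurd (csInf_le hKb (⟨⟨h0, hτ.le.trans hmem.1.2⟩, h⟩ : τ ∈ K)) (not_le.2 hτ)
  have hle : f (sInf K) ≤ A := by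
    by_contra h
    push Not at h
    have hsub : Icc 0 (sInf K) ⊆ Icc 0 s := Icc_subset_Icc_right hmem.1.2
    obtain ⟨τ, hτ, hτA⟩ := intermediate_value_Icc hmem.1.1 (hf.mono hsub) ⟨h0, h.le⟩
    rcases lt_or_eq_of_le hτ.2 with h2 | h2
    · exact absurd hτA (hlt τ hτ.1 h2).ne
    · rw [h2] at hτA; linarith
  refine ⟨sInf K, hmem.1, le_antisymm hle hmem.2, fun τ hτ => ?_⟩
  rcases lt_or_eq_of_le hτ.2 with h2 | h2
  · exact (hlt τ hτ.1 h2).le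
  · rw [h2]; exact hle

/-! ### amplitudes -/

theorem ap_eq {I : Type} (sh : I → ℕ) (ty : I → Bool) (ρ : ℕ → ℕ) (b : Bool) (n : ℕ)
    (hf : {i | sh i = n ∧ ty i = b}.Finite) (z : I → ℝ) :
    ap sh ty ρ b n z = ∑ i ∈ hf.toFinset, (√(ρ n : ℝ))⁻¹ * z i := by
  unfold ap
  rw [tsum_eq_sum (s := hf.toFinset)]
  · refine Finset.sum_congr rfl fun i hi => ?_
    rw [fl, if_pos (by simpa using hi)]
  · intro i hi
    rw [fl, if_neg (by simpa using hi), zero_mul]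

theorem sq_one {I : Type} (S : Finset I) (k : ℕ) (hk : 0 < k) (h : S.card = k) :
    ∑ _i ∈ S, ((√(k : ℝ))⁻¹) ^ 2 = 1 := by
  have h1 : (0 : ℝ) < k := by exact_mod_cast hk
  rw [Finset.sum_const, h, nsmul_eq_mul, inv_pow, Real.sq_sqrt h1.le]
  field_simp

theorem cs {I : Type} (S : Finset I) (f : ℝ) (hf : ∑ _i ∈ S, f ^ 2 = 1) (z : I → ℝ) {C : ℝ}
    (hC : 0 ≤ C) (hz : ∑ i ∈ S, z i ^ 2 ≤ C ^ 2) : |∑ i ∈ S, f * z i| ≤ C := by
  refine abs_le_of_sq_le_sq ?_ hC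
  have := Finset.sum_mul_sq_le_sq_mul_sq S (fun _ => f) z
  rw [hf, one_mul] at this
  exact this.trans hz

section

variable {G : GS}

theorem cardf {I : Type} {sh : I → ℕ} {ty : I → Bool} {ρ : ℕ → ℕ} {b : Bool} {n : ℕ}
    (hf : {i | sh i = n ∧ ty i = b}.Finite) (h : {i | sh i = n ∧ ty i = b}.ncard = ρ n) :
    hf.toFinset.card = ρ n := by
  rw [← h, Set.ncard_eq_toFinset_card _ hf]

theorem en_fin {z : G.I ⊕ G.J → ℝ} {M : ℝ} (h : G.en z ≤ ENNReal.ofReal (M ^ 2))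
    (S : Finset (G.I ⊕ G.J)) : ∑ i ∈ S, z i ^ 2 ≤ M ^ 2 := by
  rw [← ENNReal.ofReal_le_ofReal_iff (sq_nonneg M),
    ENNReal.ofReal_sum_of_nonneg fun i _ => sq_nonneg _]
  exact (ENNReal.sum_le_tsum S).trans h

theorem en_inl {z : G.I ⊕ G.J → ℝ} {M : ℝ} (h : G.en z ≤ ENNReal.ofReal (M ^ 2))
    (S : Finset G.I) : ∑ i ∈ S, z (Sum.inl i) ^ 2 ≤ M ^ 2 := by
  have := en_fin h (S.map Function.Embedding.inl)
  rwa [Finset.sum_map] at this

theorem en_inr {z : G.I ⊕ G.J → ℝ} {M : ℝ} (h : G.en z ≤ ENNReal.ofReal (M ^ 2))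
    (S : Finset G.J) : ∑ i ∈ S, z (Sum.inr i) ^ 2 ≤ M ^ 2 := by
  have := en_fin h (S.map Function.Embedding.inr)
  rwa [Finset.sum_map] at this

theorem Y_le {z : G.I ⊕ G.J → ℝ} {M : ℝ} (hM : 0 ≤ M) (h : G.en z ≤ ENNReal.ofReal (M ^ 2))
    (n : ℕ) : |G.Y n z| ≤ M := by
  rw [GS.Y, ap_eq _ _ _ _ _ (G.fin n true)]
  exact cs _ _ (sq_one _ _ (G.pos n) (cardf _ (G.card n true))) _ hM (en_inl h _)

theorem Z_le {z : G.I ⊕ G.J → ℝ} {M : ℝ} (hM : 0 ≤ M) (h : G.en z ≤ ENNReal.ofReal (M ^ 2))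
    (n : ℕ) : |G.Z n z| ≤ M := by
  rw [GS.Z, ap_eq _ _ _ _ _ (G.fin n false)]
  exact cs _ _ (sq_one _ _ (G.pos n) (cardf _ (G.card n false))) _ hM (en_inl h _)

theorem P_le {z : G.I ⊕ G.J → ℝ} {M : ℝ} (hM : 0 ≤ M) (h : G.en z ≤ ENNReal.ofReal (M ^ 2))
    (n : ℕ) : |G.P n z| ≤ M := by
  rw [GS.P, ap_eq _ _ _ _ _ (G.fin' n true)]
  exact cs _ _ (sq_one _ _ (G.pos' n) (cardf _ (G.card' n true))) _ hM (en_inr h _)

theorem Z_eq (G : GS) (n : ℕ) (z : G.I ⊕ G.J → ℝ) :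
    G.Z n z = ∑ i ∈ (G.fin n false).toFinset, (√(G.ρ n : ℝ))⁻¹ * z (Sum.inl i) :=
  ap_eq _ _ _ _ _ (G.fin n false) _

theorem P_eq (G : GS) (n : ℕ) (z : G.I ⊕ G.J → ℝ) :
    G.P n z = ∑ i ∈ (G.fin' n true).toFinset, (√(G.ρ' n : ℝ))⁻¹ * z (Sum.inr i) :=
  ap_eq _ _ _ _ _ (G.fin' n true) _

variable {N : ℕ} {x : ℝ → G.I ⊕ G.J → ℝ}

theorem x_cont (hx : G.Tr N x) {i : G.I ⊕ G.J} (hi : G.s i ≤ N) :
    ContinuousOn (fun τ => x τ i) (Ici 0) := fun t ht => (hx.ode i hi t ht).continuousWithinAt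

theorem x_deriv (hx : G.Tr N x) {i : G.I ⊕ G.J} (hi : G.s i ≤ N) {t : ℝ} (ht : 0 < t) :
    HasDerivAt (fun τ => x τ i) (-(G.D i * x t i) + G.vf (x t) i) t :=
  (hx.ode i hi t ht.le).hasDerivAt (Ici_mem_nhds ht)

theorem Z_cont (hx : G.Tr N x) {n : ℕ} (hn : n ≤ N) :
    ContinuousOn (fun τ => G.Z n (x τ)) (Ici 0) := by
  simp only [Z_eq]
  refine continuousOn_finsetSum _ fun i hi => ?_
  have : G.sh i = n := by
    have := (Set.Finite.mem_toFinset _).1 hi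
    exact this.1
  exact continuousOn_const.mul (x_cont hx (i := Sum.inl i) (by simpa [GS.s, this] using hn))

theorem P_cont (hx : G.Tr N x) {n : ℕ} (hn : n ≤ N) :
    ContinuousOn (fun τ => G.P n (x τ)) (Ici 0) := by
  simp only [P_eq]
  refine continuousOn_finsetSum _ fun i hi => ?_
  have : G.sh' i = n := by
    have := (Set.Finite.mem_toFinset _).1 hi
    exact this.1
  exact continuousOn_const.mul (x_cont hx (i := Sum.inr i) (by simpa [GS.s, this] using hn))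

/-- the derivative of `Z n` -/
theorem Z_deriv (hx : G.Tr N x) {n : ℕ} (hn : n ≤ N) {M a Λ : ℝ} (hM : 0 < M)
    (hΛ : 0 < Λ)
    (hE : ∀ t, 0 ≤ t → G.en (x t) ≤ ENNReal.ofReal (M ^ 2))
    (dr : ∀ i, G.sh i = n → (2 * G.c n * M ^ 2 + G.d i * M) * Λ ≤ G.r n * a ^ 2 / 100)
    {t : ℝ} (ht : 0 < t) :
    ∃ D, HasDerivAt (fun τ => G.Z n (x τ)) D t ∧
      -(G.r n * a ^ 2 / (100 * Λ)) - G.r n * G.P n (x t) ^ 2 ≤ D := by
  set S := (G.fin n false).toFinset with hS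
  have hmem : ∀ i ∈ S, G.sh i = n ∧ G.ty i = false := by
    intro i hi
    have := (Set.Finite.mem_toFinset _).1 hi
    exact this
  set f : ℝ := (√(G.ρ n : ℝ))⁻¹ with hf
  have hf1 : ∑ _i ∈ S, f ^ 2 = 1 := sq_one _ _ (G.pos n) (cardf _ (G.card n false))
  set A : ℝ := G.c n * (G.Z n (x t) * (G.Y n (x t) - G.Y (n + 1) (x t)))
        + G.ε * G.c n * G.Y n (x t) ^ 2 - G.r n * G.P n (x t) ^ 2 with hA
  refine ⟨∑ i ∈ S, f * (-(G.d i * x t (Sum.inl i)) + f * A), ?_, ?_⟩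
  · simp only [Z_eq]
    refine HasDerivAt.fun_sum (u := S) fun i hi => ?_
    have h1 := x_deriv hx (i := Sum.inl i) (by simpa [GS.s, (hmem i hi).1] using hn) ht
    refine (h1.const_mul f).congr_deriv ?_
    have h2 : G.vf (x t) (Sum.inl i) = f * A := by
      show (√(G.ρ (G.sh i) : ℝ))⁻¹ * (if G.ty i = true then _ else _) = _
      rw [(hmem i hi).1, (hmem i hi).2, if_neg (by simp)]
    rw [h2]; rfl
  · have h3 : ∑ i ∈ S, f * (-(G.d i * x t (Sum.inl i)) + f * A) =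
        A - ∑ i ∈ S, f * (G.d i * x t (Sum.inl i)) := by
      have : ∑ i ∈ S, f * (-(G.d i * x t (Sum.inl i)) + f * A) =
          (∑ _i ∈ S, f ^ 2) * A - ∑ i ∈ S, f * (G.d i * x t (Sum.inl i)) := by
        rw [Finset.sum_mul, ← Finset.sum_sub_distrib]
        exact Finset.sum_congr rfl fun i _ => by ring
      rw [this, hf1, one_mul]
    rw [h3]
    -- the dissipation
    set κ : ℝ := (G.r n * a ^ 2 / (100 * Λ) - 2 * G.c n * M ^ 2) / M with hκ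
    have hd : ∀ i ∈ S, G.d i ≤ κ := by
      intro i hi
      have h4 := dr i (hmem i hi).1
      rw [hκ, le_div_iff₀ hM]
      have h5 : G.r n * a ^ 2 / (100 * Λ) = G.r n * a ^ 2 / 100 / Λ := by
        rw [div_div]
      have h6 : 2 * G.c n * M ^ 2 + G.d i * M ≤ G.r n * a ^ 2 / 100 / Λ := by
        rw [le_div_iff₀ hΛ]; exact h4
      linarith
    have hne : S.Nonempty := by
      by_contra h
      rw [Finset.not_nonempty_iff_eq_empty] at h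
      rw [h, Finset.sum_empty] at hf1
      exact zero_ne_one hf1
    have hκ0 : 0 ≤ κ := by
      obtain ⟨i, hi⟩ := hne
      exact (G.d0 i).trans (hd i hi)
    have h7 : |∑ i ∈ S, f * (G.d i * x t (Sum.inl i))| ≤ κ * M := by
      refine cs S f hf1 _ (mul_nonneg hκ0 hM.le) ?_
      calc ∑ i ∈ S, (G.d i * x t (Sum.inl i)) ^ 2 ≤ ∑ i ∈ S, κ ^ 2 * x t (Sum.inl i) ^ 2 := by
            refine Finset.sum_le_sum fun i hi => ?_
            rw [mul_pow]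
            exact mul_le_mul_of_nonneg_right (pow_le_pow_left₀ (G.d0 i) (hd i hi) 2) (sq_nonneg _)
        _ = κ ^ 2 * ∑ i ∈ S, x t (Sum.inl i) ^ 2 := by rw [Finset.mul_sum]
        _ ≤ κ ^ 2 * M ^ 2 := mul_le_mul_of_nonneg_left (en_inl (hE t ht.le) S) (sq_nonneg _)
        _ = (κ * M) ^ 2 := by ring
    have h8 : κ * M = G.r n * a ^ 2 / (100 * Λ) - 2 * G.c n * M ^ 2 := by
      rw [hκ, div_mul_cancel₀ _ hM.ne']
    have h9 := (abs_le.1 h7).2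
    have hy1 := Y_le hM.le (hE t ht.le) n
    have hy2 := Y_le hM.le (hE t ht.le) (n + 1)
    have hz := Z_le hM.le (hE t ht.le) n
    have h10 : |G.Z n (x t) * (G.Y n (x t) - G.Y (n + 1) (x t))| ≤ M * (2 * M) := by
      rw [abs_mul]
      refine mul_le_mul hz ?_ (abs_nonneg _) hM.le
      refine (abs_sub _ _).trans ?_
      linarith
    have h11 := mul_le_mul_of_nonneg_left (neg_le_of_abs_le h10) (G.c0 n)
    have h12 : 0 ≤ G.ε * G.c n * G.Y n (x t) ^ 2 :=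
      mul_nonneg (mul_nonneg G.ε0 (G.c0 n)) (sq_nonneg _)
    rw [hA]
    nlinarith

/-- the derivative of the amplitudes in the shell `k + 1` -/
theorem p_deriv (hx : G.Tr N x) {k : ℕ} (hn : k + 1 ≤ N) {t : ℝ} (ht : 0 < t) {j : G.J}
    (hj : j ∈ (G.fin' (k + 1) true).toFinset) :
    HasDerivAt (fun τ => x τ (Sum.inr j)) ((√(G.ρ' (k + 1) : ℝ))⁻¹ *
      ((G.r (k + 1) * G.Z (k + 1) (x t) - G.r k * G.P k (x t)) *
        (∑ i ∈ (G.fin' (k + 1) true).toFinset, (√(G.ρ' (k + 1) : ℝ))⁻¹ * x t (Sum.inr i)) +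
        G.r (k + 1) * G.P (k + 2) (x t) ^ 2) - G.d' j * x t (Sum.inr j)) t := by
  have hm : G.sh' j = k + 1 ∧ G.ty' j = true := by
    have := (Set.Finite.mem_toFinset _).1 hj
    exact this
  have h1 := x_deriv hx (i := Sum.inr j) (by simpa [GS.s, hm.1] using hn) ht
  refine h1.congr_deriv ?_
  have h2 : G.vf (x t) (Sum.inr j) = (√(G.ρ' (k + 1) : ℝ))⁻¹ *
      (G.r (k + 1) * (G.P (k + 1) (x t) * G.Z (k + 1) (x t) + G.P (k + 2) (x t) ^ 2)
        - G.r k * (G.P (k + 1) (x t) * G.P k (x t))) := by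
    show (√(G.ρ' (G.sh' j) : ℝ))⁻¹ * (if G.ty' j = true then _ else _) = _
    rw [hm.1, hm.2, if_pos rfl, if_neg (Nat.succ_ne_zero k)]
    rfl
  rw [h2, ← P_eq]
  show -(G.d' j * x t (Sum.inr j)) + _ = _
  ring

/-- positivity and growth -/
theorem grow (hx : G.Tr N x) {n₁ : ℕ} {M Λ : ℝ} {a : ℕ → ℝ} (hp : G.Fp n₁ M Λ a)
    (hE : ∀ t, 0 ≤ t → G.en (x t) ≤ ENNReal.ofReal (M ^ 2)) {k : ℕ} (hk : n₁ ≤ k)
    (hn : k + 1 ≤ N) {s t : ℝ} (hs : 0 ≤ s)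
    (hZ : ∀ τ ∈ Icc s t, 0.86 * a (k + 1) ≤ G.Z (k + 1) (x τ))
    (hP : ∀ τ ∈ Icc s t, G.P k (x τ) ≤ a k / 4)
    (h0 : ∀ j ∈ (G.fin' (k + 1) true).toFinset, 0 ≤ x s (Sum.inr j)) :
    (∀ τ ∈ Icc s t, ∀ j ∈ (G.fin' (k + 1) true).toFinset, 0 ≤ x τ (Sum.inr j)) ∧
    (∀ τ ∈ Icc s t, 0 ≤ G.P (k + 1) (x τ)) ∧
    (∀ τ ∈ Ioo s t, ∃ D, HasDerivAt (fun τ => G.P (k + 1) (x τ)) D τ ∧
      0.78 * (G.r (k + 1) * a (k + 1)) * G.P (k + 1) (x τ) +
        G.r (k + 1) * G.P (k + 2) (x τ) ^ 2 ≤ D) := by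
  set S := (G.fin' (k + 1) true).toFinset with hS
  have hmem : ∀ i ∈ S, G.sh' i = k + 1 := by
    intro i hi
    have := (Set.Finite.mem_toFinset _).1 hi
    exact this.1
  set f : ℝ := (√(G.ρ' (k + 1) : ℝ))⁻¹ with hf
  have hf0 : 0 ≤ f := inv_nonneg.2 (Real.sqrt_nonneg _)
  have hf1 : ∑ _i ∈ S, f ^ 2 = 1 := sq_one _ _ (G.pos' _) (cardf _ (G.card' _ true))
  have hmu0 : 0 < G.r (k + 1) * a (k + 1) := mul_pos (hp.rp _) (hp.a0 _)
  have hmu := hp.mu k hk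
  have hg : ∀ τ ∈ Icc s t, 0.79 * (G.r (k + 1) * a (k + 1)) ≤
      G.r (k + 1) * G.Z (k + 1) (x τ) - G.r k * G.P k (x τ) := by
    intro τ hτ
    have h1 := mul_le_mul_of_nonneg_left (hZ τ hτ) (hp.rp (k + 1)).le
    have h2 := mul_le_mul_of_nonneg_left (hP τ hτ) (hp.rp k).le
    nlinarith
  have hsub : Icc s t ⊆ Ici 0 := fun τ hτ => hs.trans hτ.1
  have hpos : ∀ τ ∈ Icc s t, ∀ j ∈ S, 0 ≤ x τ (Sum.inr j) := by
    refine pos_lemma S f hf1 hf0 (fun τ j => x τ (Sum.inr j))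
      (fun τ => G.r (k + 1) * G.Z (k + 1) (x τ) - G.r k * G.P k (x τ))
      (fun τ => G.r (k + 1) * G.P (k + 2) (x τ) ^ 2) G.d' G.d0' (G.r (k + 1) * M + G.r k * M)
      s t ?_ ?_ ?_ ?_ ?_ h0
    · intro j hj
      exact (x_cont hx (i := Sum.inr j) (by simpa [GS.s, hmem j hj] using hn)).mono hsub
    · intro j hj τ hτ
      exact p_deriv hx hn (hs.trans_lt hτ.1) hj
    · intro τ hτ
      have := hg τ (Ioo_subset_Icc_self hτ)
      show 0 ≤ G.r (k + 1) * G.Z (k + 1) (x τ) - G.r k * G.P k (x τ)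
      nlinarith
    · intro τ hτ
      have hτ0 : 0 ≤ τ := hs.trans hτ.1.le
      have h1 := mul_le_mul_of_nonneg_left (abs_le.1 (Z_le hp.M0.le (hE τ hτ0) (k + 1))).2
        (G.r0 (k + 1))
      have h2 := mul_le_mul_of_nonneg_left (abs_le.1 (P_le hp.M0.le (hE τ hτ0) k)).1 (G.r0 k)
      show G.r (k + 1) * G.Z (k + 1) (x τ) - G.r k * G.P k (x τ) ≤ _
      nlinarith
    · intro τ _
      exact mul_nonneg (G.r0 _) (sq_nonneg _)
  have hP0 : ∀ τ ∈ Icc s t, 0 ≤ G.P (k + 1) (x τ) := by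
    intro τ hτ
    rw [P_eq]
    exact Finset.sum_nonneg fun j hj => mul_nonneg hf0 (hpos τ hτ j hj)
  refine ⟨hpos, hP0, fun τ hτ => ?_⟩
  have hτ' := Ioo_subset_Icc_self hτ
  set A := (G.r (k + 1) * G.Z (k + 1) (x τ) - G.r k * G.P k (x τ)) *
        (∑ i ∈ (G.fin' (k + 1) true).toFinset, (√(G.ρ' (k + 1) : ℝ))⁻¹ * x τ (Sum.inr i)) +
        G.r (k + 1) * G.P (k + 2) (x τ) ^ 2 with hA
  refine ⟨∑ j ∈ S, f * (f * A - G.d' j * x τ (Sum.inr j)), ?_, ?_⟩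
  · simp only [P_eq G (k + 1)]
    exact HasDerivAt.fun_sum (u := S) fun j hj =>
      (p_deriv hx hn (hs.trans_lt hτ.1) hj).const_mul f
  · have h3 : ∑ j ∈ S, f * (f * A - G.d' j * x τ (Sum.inr j)) =
        A - ∑ j ∈ S, f * (G.d' j * x τ (Sum.inr j)) := by
      have : ∑ j ∈ S, f * (f * A - G.d' j * x τ (Sum.inr j)) =
          (∑ _i ∈ S, f ^ 2) * A - ∑ j ∈ S, f * (G.d' j * x τ (Sum.inr j)) := by
        rw [Finset.sum_mul, ← Finset.sum_sub_distrib]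
        exact Finset.sum_congr rfl fun i _ => by ring
      rw [this, hf1, one_mul]
    have h4 : ∑ j ∈ S, f * (G.d' j * x τ (Sum.inr j)) ≤
        (G.r (k + 1) * a (k + 1) / 100) * G.P (k + 1) (x τ) := by
      rw [P_eq, Finset.mul_sum]
      refine Finset.sum_le_sum fun j hj => ?_
      have h5 := hp.dp (k + 1) (hk.trans (Nat.le_succ k)) j (hmem j hj)
      have h6 := mul_le_mul_of_nonneg_right h5 (mul_nonneg hf0 (hpos τ hτ' j hj))
      calc f * (G.d' j * x τ (Sum.inr j)) = G.d' j * (f * x τ (Sum.inr j)) := by ring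
        _ ≤ _ := h6
    rw [h3]
    have h7 := mul_le_mul_of_nonneg_right (hg τ hτ') (hP0 τ hτ')
    have h8 : A = (G.r (k + 1) * G.Z (k + 1) (x τ) - G.r k * G.P k (x τ)) * G.P (k + 1) (x τ) +
        G.r (k + 1) * G.P (k + 2) (x τ) ^ 2 := by
      rw [hA, ← P_eq]
    rw [h8]
    nlinarith

/-- Claim A -/
theorem claimA (hx : G.Tr N x) {n₁ : ℕ} {M Λ : ℝ} {a : ℕ → ℝ} (hp : G.Fp n₁ M Λ a)
    (hE : ∀ t, 0 ≤ t → G.en (x t) ≤ ENNReal.ofReal (M ^ 2)) {k : ℕ} (hk : n₁ ≤ k)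
    (hn : k + 1 ≤ N) {t₁ : ℝ} (ht₁ : t₁ ≤ Λ / (G.r (k + 1) * a (k + 1)))
    (hP1 : ∀ τ ∈ Icc 0 t₁, G.P (k + 1) (x τ) ≤ a (k + 1) / 4)
    (hP : ∀ τ ∈ Icc 0 t₁, G.P k (x τ) ≤ a k / 4)
    (hZ0 : a (k + 1) ≤ G.Z (k + 1) (x 0))
    (h0 : ∀ j ∈ (G.fin' (k + 1) true).toFinset, 0 ≤ x 0 (Sum.inr j)) :
    ∀ τ ∈ Icc 0 t₁, 0.94 * a (k + 1) ≤ G.Z (k + 1) (x τ) := by
  intro τ hτ
  by_contra hcon
  push Not at hcon
  have ha := hp.a0 (k + 1)
  have hr := hp.rp (k + 1)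
  have hΛ : 0 < Λ := by have := hp.L2; linarith
  obtain ⟨T, hT, hTZ, hTle⟩ := first_time (f := fun σ => -G.Z (k + 1) (x σ)) (s := τ)
    (A := -(0.94 * a (k + 1))) hτ.1 ((Z_cont hx hn).neg.mono fun σ hσ => hσ.1)
    (by show -G.Z (k + 1) (x 0) ≤ _; linarith) (by show _ ≤ -G.Z (k + 1) (x τ); linarith)
  have hTZ' : G.Z (k + 1) (x T) = 0.94 * a (k + 1) := by
    have : -G.Z (k + 1) (x T) = -(0.94 * a (k + 1)) := hTZ
    linarith
  have hTle' : ∀ σ ∈ Icc 0 T, 0.94 * a (k + 1) ≤ G.Z (k + 1) (x σ) := by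
    intro σ hσ
    have : -G.Z (k + 1) (x σ) ≤ -(0.94 * a (k + 1)) := hTle σ hσ
    linarith
  have hsub : ∀ σ ∈ Icc 0 T, σ ∈ Icc 0 t₁ := fun σ hσ => ⟨hσ.1, hσ.2.trans (hT.2.trans hτ.2)⟩
  obtain ⟨-, hP0, hPd⟩ := grow hx hp hE hk hn (s := 0) (t := T) le_rfl
    (fun σ hσ => by have := hTle' σ hσ; nlinarith) (fun σ hσ => hP σ (hsub σ hσ)) h0
  set δ : ℝ := G.r (k + 1) * a (k + 1) ^ 2 / (100 * Λ) with hδ
  have hW : MonotoneOn (fun σ => G.Z (k + 1) (x σ) + G.P (k + 1) (x σ) ^ 2 / (1.56 * a (k + 1))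
      + σ * δ) (Icc 0 T) := by
    refine mono_of ?_ fun σ hσ => ?_
    · have h1 := (Z_cont hx hn).mono (fun σ (hσ : σ ∈ Icc 0 T) => hσ.1)
      have h2 := (P_cont hx hn).mono (fun σ (hσ : σ ∈ Icc 0 T) => hσ.1)
      exact (h1.add ((h2.pow 2).div_const _)).add (by fun_prop)
    · obtain ⟨D, hD, hDle⟩ := hPd σ hσ
      obtain ⟨D', hD', hDle'⟩ := Z_deriv hx hn hp.M0 hΛ hE
        (hp.dr (k + 1) (hk.trans (Nat.le_succ k))) hσ.1
      refine ⟨_, (hD'.add ((hD.pow 2).div_const _)).add ((hasDerivAt_id σ).mul_const δ), ?_⟩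
      have hPσ := hP0 σ (Ioo_subset_Icc_self hσ)
      have h3 : G.r (k + 1) * G.P (k + 1) (x σ) ^ 2 ≤
          2 * G.P (k + 1) (x σ) * D / (1.56 * a (k + 1)) := by
        rw [le_div_iff₀ (by positivity)]
        have h4 : 0 ≤ G.r (k + 1) * G.P (k + 2) (x σ) ^ 2 := mul_nonneg hr.le (sq_nonneg _)
        have h5 : 0.78 * (G.r (k + 1) * a (k + 1)) * G.P (k + 1) (x σ) ≤ D := by linarith
        have h6 := mul_le_mul_of_nonneg_left h5 hPσ
        nlinarith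
      have h7 : ((2 : ℕ) : ℝ) * G.P (k + 1) (x σ) ^ (2 - 1) * D / (1.56 * a (k + 1)) =
          2 * G.P (k + 1) (x σ) * D / (1.56 * a (k + 1)) := by norm_num
      rw [h7]
      linarith
  have hT0 : (0 : ℝ) ∈ Icc 0 T := ⟨le_rfl, hT.1⟩
  have hTT : T ∈ Icc 0 T := ⟨hT.1, le_rfl⟩
  have h8 := hW hT0 hTT hT.1
  simp only [zero_mul, add_zero] at h8
  have h9 : 0 ≤ G.P (k + 1) (x 0) ^ 2 / (1.56 * a (k + 1)) := by positivity
  have h10 : G.P (k + 1) (x T) ^ 2 / (1.56 * a (k + 1)) ≤ a (k + 1) / 24 := by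
    rw [div_le_iff₀ (by positivity)]
    have h11 := hP1 T (hsub T hTT)
    have h12 := hP0 T hTT
    nlinarith
  have h13 : T * δ ≤ a (k + 1) / 100 := by
    have h14 : T ≤ Λ / (G.r (k + 1) * a (k + 1)) := (hsub T hTT).2.trans ht₁
    have h15 : 0 ≤ δ := by positivity
    calc T * δ ≤ Λ / (G.r (k + 1) * a (k + 1)) * δ := mul_le_mul_of_nonneg_right h14 h15
      _ = a (k + 1) / 100 := by rw [hδ]; field_simp
  rw [hTZ'] at h8
  nlinarith

/-- the step -/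
theorem step (hx : G.Tr N x) {n₁ : ℕ} {M Λ : ℝ} {a : ℕ → ℝ} (hp : G.Fp n₁ M Λ a)
    (hE : ∀ t, 0 ≤ t → G.en (x t) ≤ ENNReal.ofReal (M ^ 2)) {k : ℕ} (hk : n₁ ≤ k)
    (hn : k + 2 ≤ N) (hZ0 : ∀ n, n₁ ≤ n → n ≤ N → a n ≤ G.Z n (x 0))
    (h0 : ∀ n, n ≤ N → ∀ j ∈ (G.fin' n true).toFinset, 0 ≤ x 0 (Sum.inr j))
    (hP0 : ∀ n, n ≤ N → G.P n (x 0) ≤ a n / 4)
    (hF : ∃ s ∈ Icc 0 (Λ / (G.r (k + 2) * a (k + 2))), a (k + 2) / 4 ≤ G.P (k + 2) (x s)) :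
    (∃ s ∈ Icc 0 (Λ / (G.r (k + 1) * a (k + 1))), a (k + 1) / 4 ≤ G.P (k + 1) (x s)) ∨
    (∃ s ∈ Icc 0 (Λ / (G.r k * a k)), a k / 4 ≤ G.P k (x s)) := by
  by_contra hcon
  push Not at hcon
  obtain ⟨hc1, hc0⟩ := hcon
  have hΛ : 0 < Λ := by have := hp.L2; linarith
  have hΛ2 := hp.L2
  have ha0 := hp.a0 k
  have ha1 := hp.a0 (k + 1)
  have ha2 := hp.a0 (k + 2)
  have hr0 := hp.rp k
  have hr1 := hp.rp (k + 1)
  have hr2 := hp.rp (k + 2)
  set μ0 : ℝ := G.r k * a k with hμ0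
  set μ1 : ℝ := G.r (k + 1) * a (k + 1) with hμ1
  set μ2 : ℝ := G.r (k + 2) * a (k + 2) with hμ2
  have hμ0p : 0 < μ0 := mul_pos hr0 ha0
  have hμ1p : 0 < μ1 := mul_pos hr1 ha1
  have hμ2p : 0 < μ2 := mul_pos hr2 ha2
  have hμ01 : 4 * μ0 ≤ μ1 := hp.mu k hk
  have hμ12 : 4 * μ1 ≤ μ2 := hp.mu (k + 1) (hk.trans (Nat.le_succ k))
  have hT1 : Λ / μ1 ≤ Λ / μ0 := div_le_div_of_nonneg_left hΛ.le hμ0p (by linarith)
  have hT2 : Λ / μ2 ≤ Λ / μ1 / 4 := by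
    rw [div_div, mul_comm μ1 4]
    exact div_le_div_of_nonneg_left hΛ.le (by linarith) hμ12
  have hT1p : 0 < Λ / μ1 := div_pos hΛ hμ1p
  obtain ⟨s, hs, hsP⟩ := hF
  obtain ⟨s₀, hs₀, hs₀P, hs₀le⟩ := first_time (f := fun σ => G.P (k + 2) (x σ)) (s := s)
    (A := a (k + 2) / 4) hs.1 ((P_cont hx hn).mono fun σ hσ => hσ.1) (hP0 _ hn) hsP
  have hs₀2 : s₀ ≤ Λ / μ2 := hs₀.2.trans hs.2
  have hs₀1 : s₀ ≤ Λ / μ1 := by linarith
  -- claim A in the shells `k + 1`, `k + 2`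
  have hA1 := claimA hx hp hE hk (by omega) (t₁ := Λ / μ1) le_rfl
    (fun τ hτ => (hc1 τ hτ).le) (fun τ hτ => (hc0 τ ⟨hτ.1, hτ.2.trans hT1⟩).le)
    (hZ0 _ (by omega) (by omega)) (h0 _ (by omega))
  have hA2 := claimA hx hp hE (k := k + 1) (by omega) hn (t₁ := s₀) hs₀2
    hs₀le (fun τ hτ => (hc1 τ ⟨hτ.1, hτ.2.trans hs₀1⟩).le)
    (hZ0 _ (by omega) (by omega)) (h0 _ (by omega))
  obtain ⟨-, hP1n, hP1d⟩ := grow hx hp hE hk (by omega) (s := 0) (t := Λ / μ1) le_rfl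
    (fun σ hσ => by have := hA1 σ hσ; nlinarith)
    (fun τ hτ => (hc0 τ ⟨hτ.1, hτ.2.trans hT1⟩).le) (h0 _ (by omega))
  obtain ⟨hpos2, -, -⟩ := grow hx hp hE (k := k + 1) (by omega) hn (s := 0) (t := s₀) le_rfl
    (fun σ hσ => by have := hA2 σ hσ; nlinarith)
    (fun τ hτ => (hc1 τ ⟨hτ.1, hτ.2.trans hs₀1⟩).le) (h0 _ (by omega))
  have hpos2' := hpos2 s₀ ⟨hs₀.1, le_rfl⟩
  -- the window
  set w : ℝ := 2 / μ2 with hw
  have hwp : 0 < w := by positivity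
  have hs1 : s₀ + w ≤ Λ / μ1 / 2 := by
    have h1 : w ≤ Λ / μ2 := by
      rw [hw]; exact div_le_div_of_nonneg_right hΛ2 hμ2p.le
    linarith
  have hsub : ∀ τ ∈ Icc s₀ (s₀ + w), τ ∈ Icc 0 (Λ / μ1) := fun τ hτ =>
    ⟨hs₀.1.trans hτ.1, by have := hτ.2; linarith⟩
  have hmono1 : MonotoneOn (fun σ => G.P (k + 1) (x σ)) (Icc 0 (Λ / μ1)) := by
    refine mono_of ((P_cont hx (by omega)).mono fun σ hσ => hσ.1) fun σ hσ => ?_
    obtain ⟨D, hD, hDle⟩ := hP1d σ hσ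
    refine ⟨D, hD, ?_⟩
    have h1 := hP1n σ (Ioo_subset_Icc_self hσ)
    have h2 : 0 ≤ 0.78 * (G.r (k + 1) * a (k + 1)) * G.P (k + 1) (x σ) := by positivity
    have h3 : 0 ≤ G.r (k + 1) * G.P (k + 2) (x σ) ^ 2 := by positivity
    linarith
  have hkey : G.r (k + 1) * a (k + 2) / 16 ≤ G.r (k + 2) * G.P (k + 1) (x (s₀ + w)) := by
    by_contra hlt
    push Not at hlt
    set δ : ℝ := G.r (k + 2) * a (k + 2) ^ 2 / (100 * Λ) with hδ
    have hδp : 0 < δ := by positivity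
    have hwδ : w * δ ≤ a (k + 2) / 100 := by
      have : w * δ = 2 * a (k + 2) / (100 * Λ) := by
        rw [hw, hδ, hμ2]; field_simp
      rw [this, div_le_div_iff₀ (by positivity) (by norm_num)]
      nlinarith
    have hV : MonotoneOn (fun σ => G.Z (k + 2) (x σ) +
        G.r (k + 2) / G.r (k + 1) * G.P (k + 1) (x σ) + σ * δ) (Icc s₀ (s₀ + w)) := by
      refine mono_of ?_ fun σ hσ => ?_
      · have h1 := (Z_cont hx hn).mono (fun σ (hσ : σ ∈ Icc s₀ (s₀ + w)) =>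
          (hsub σ hσ).1)
        have h2 := (P_cont hx (n := k + 1) (by omega)).mono
          (fun σ (hσ : σ ∈ Icc s₀ (s₀ + w)) => (hsub σ hσ).1)
        exact (h1.add (continuousOn_const.mul h2)).add (by fun_prop)
      · have hσ0 : 0 < σ := hs₀.1.trans_lt hσ.1
        have hσ1 : σ ∈ Ioo 0 (Λ / μ1) := ⟨hσ0, by have := hσ.2; linarith⟩
        obtain ⟨D, hD, hDle⟩ := hP1d σ hσ1
        obtain ⟨D', hD', hDle'⟩ := Z_deriv hx hn hp.M0 hΛ hE (hp.dr (k + 2) (by omega)) hσ0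
        refine ⟨_, (hD'.add (hD.const_mul _)).add ((hasDerivAt_id σ).mul_const δ), ?_⟩
        have h1 := hP1n σ (Ioo_subset_Icc_self hσ1)
        have h2 : 0 ≤ 0.78 * (G.r (k + 1) * a (k + 1)) * G.P (k + 1) (x σ) := by positivity
        have h3 : G.r (k + 1) * G.P (k + 2) (x σ) ^ 2 ≤ D := by linarith
        have h4 : G.r (k + 2) * G.P (k + 2) (x σ) ^ 2 ≤ G.r (k + 2) / G.r (k + 1) * D := by
          calc G.r (k + 2) * G.P (k + 2) (x σ) ^ 2 = G.r (k + 2) / G.r (k + 1) *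
                (G.r (k + 1) * G.P (k + 2) (x σ) ^ 2) := by field_simp
            _ ≤ _ := mul_le_mul_of_nonneg_left h3 (by positivity)
        linarith
    have hZw : ∀ τ ∈ Icc s₀ (s₀ + w), 0.86 * a (k + 2) ≤ G.Z (k + 2) (x τ) := by
      intro τ hτ
      have hs₀m : s₀ ∈ Icc s₀ (s₀ + w) := ⟨le_rfl, by linarith⟩
      have hs₁m : s₀ + w ∈ Icc s₀ (s₀ + w) := ⟨by linarith, le_rfl⟩
      have h1 := hV hs₀m hτ hτ.1
      simp only at h1
      have h2 := hmono1 (hsub τ hτ) (hsub _ hs₁m) hτ.2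
      simp only at h2
      have h3 := hP1n s₀ (hsub s₀ hs₀m)
      have h4 := hA2 s₀ ⟨hs₀.1, le_rfl⟩
      have hq : 0 < G.r (k + 2) / G.r (k + 1) := by positivity
      have h5 := mul_le_mul_of_nonneg_left h2 hq.le
      have h6 : G.r (k + 2) / G.r (k + 1) * G.P (k + 1) (x (s₀ + w)) < a (k + 2) / 16 := by
        rw [div_mul_eq_mul_div, div_lt_iff₀ hr1]
        linarith
      have h7 := mul_nonneg hq.le h3
      have h8 : (τ - s₀) * δ ≤ a (k + 2) / 100 :=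
        (mul_le_mul_of_nonneg_right (by linarith [hτ.2]) hδp.le).trans hwδ
      nlinarith
    obtain ⟨-, hP2n, hP2d⟩ := grow hx hp hE (k := k + 1) (by omega) hn (s := s₀) (t := s₀ + w)
      hs₀.1 hZw (fun τ hτ => (hc1 τ (hsub τ hτ)).le) hpos2'
    have hmono2 : MonotoneOn (fun σ => G.P (k + 2) (x σ)) (Icc s₀ (s₀ + w)) := by
      refine mono_of ((P_cont hx hn).mono fun σ hσ => (hsub σ hσ).1) fun σ hσ => ?_
      obtain ⟨D, hD, hDle⟩ := hP2d σ hσ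
      refine ⟨D, hD, ?_⟩
      have h1 := hP2n σ (Ioo_subset_Icc_self hσ)
      have h2 : 0 ≤ 0.78 * (G.r (k + 1 + 1) * a (k + 1 + 1)) * G.P (k + 1 + 1) (x σ) := by
        positivity
      have h3 : 0 ≤ G.r (k + 1 + 1) * G.P (k + 1 + 2) (x σ) ^ 2 := by positivity
      linarith
    have hlow : ∀ τ ∈ Icc s₀ (s₀ + w), a (k + 2) / 4 ≤ G.P (k + 2) (x τ) := by
      intro τ hτ
      have h1 := hmono2 ⟨le_rfl, by linarith⟩ hτ hτ.1
      simp only at h1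
      linarith
    have hU : MonotoneOn (fun σ => G.P (k + 1) (x σ) - σ * (G.r (k + 1) * (a (k + 2) / 4) ^ 2))
        (Icc s₀ (s₀ + w)) := by
      refine mono_of ?_ fun σ hσ => ?_
      · have h2 := (P_cont hx (n := k + 1) (by omega)).mono
          (fun σ (hσ : σ ∈ Icc s₀ (s₀ + w)) => (hsub σ hσ).1)
        exact h2.sub (by fun_prop)
      · have hσ0 : 0 < σ := hs₀.1.trans_lt hσ.1
        have hσ1 : σ ∈ Ioo 0 (Λ / μ1) := ⟨hσ0, by have := hσ.2; linarith⟩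
        obtain ⟨D, hD, hDle⟩ := hP1d σ hσ1
        refine ⟨_, hD.sub ((hasDerivAt_id σ).mul_const _), ?_⟩
        have h1 := hP1n σ (Ioo_subset_Icc_self hσ1)
        have h2 : 0 ≤ 0.78 * (G.r (k + 1) * a (k + 1)) * G.P (k + 1) (x σ) := by positivity
        have h3 : (a (k + 2) / 4) ^ 2 ≤ G.P (k + 2) (x σ) ^ 2 :=
          pow_le_pow_left₀ (by positivity) (hlow σ (Ioo_subset_Icc_self hσ)) 2
        have h4 := mul_le_mul_of_nonneg_left h3 hr1.le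
        linarith
    have h1 := hU ⟨le_rfl, by linarith⟩ ⟨by linarith, le_rfl⟩ (by linarith : s₀ ≤ s₀ + w)
    simp only at h1
    have h2 := hP1n s₀ ⟨hs₀.1, hs₀1⟩
    have h3 : w * (G.r (k + 1) * (a (k + 2) / 4) ^ 2) ≤ G.P (k + 1) (x (s₀ + w)) := by
      nlinarith
    have h4 := mul_le_mul_of_nonneg_left h3 hr2.le
    have h5 : G.r (k + 2) * (w * (G.r (k + 1) * (a (k + 2) / 4) ^ 2)) =
        G.r (k + 1) * a (k + 2) / 8 := by
      rw [hw, hμ2]; field_simp; norm_num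
    rw [h5] at h4
    have h6 : 0 < G.r (k + 1) * a (k + 2) := mul_pos hr1 ha2
    linarith
  -- the exponential growth
  have hsg := hp.sg (k + 1) (by omega)
  have hlow1 : Real.exp (-(Λ / 4)) * (a (k + 1) / 4) ≤ G.P (k + 1) (x (s₀ + w)) := by
    have h1 : 4 * Real.exp (-(Λ / 4)) * (G.r (k + 2) * a (k + 1)) ≤
        16 * (G.r (k + 2) * G.P (k + 1) (x (s₀ + w))) := by
      have : G.r (k + 1) * a (k + 2) ≤ 16 * (G.r (k + 2) * G.P (k + 1) (x (s₀ + w))) := by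
        linarith
      exact hsg.trans this
    have h2 : G.r (k + 2) * (Real.exp (-(Λ / 4)) * (a (k + 1) / 4)) ≤
        G.r (k + 2) * G.P (k + 1) (x (s₀ + w)) := by nlinarith
    exact le_of_mul_le_mul_left h2 hr2
  have hX : MonotoneOn (fun σ => G.P (k + 1) (x σ) * Real.exp (-(μ1 / 2) * σ))
      (Icc 0 (Λ / μ1)) := by
    refine mono_of ?_ fun σ hσ => ?_
    · have h2 := (P_cont hx (n := k + 1) (by omega)).mono
        (fun σ (hσ : σ ∈ Icc 0 (Λ / μ1)) => hσ.1)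
      exact h2.mul (by fun_prop)
    · obtain ⟨D, hD, hDle⟩ := hP1d σ hσ
      have he : HasDerivAt (fun τ : ℝ => Real.exp (-(μ1 / 2) * τ))
          (Real.exp (-(μ1 / 2) * σ) * (-(μ1 / 2) * 1)) σ :=
        ((hasDerivAt_id σ).const_mul (-(μ1 / 2))).exp
      refine ⟨_, hD.mul he, ?_⟩
      have h1 := hP1n σ (Ioo_subset_Icc_self hσ)
      have h3 : 0 ≤ G.r (k + 1) * G.P (k + 2) (x σ) ^ 2 := by positivity
      have h4 : μ1 / 2 * G.P (k + 1) (x σ) ≤ D := by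
        have : 0 ≤ μ1 * G.P (k + 1) (x σ) := by positivity
        nlinarith
      have h5 := mul_le_mul_of_nonneg_right h4 (Real.exp_pos (-(μ1 / 2) * σ)).le
      nlinarith
  have hs₁m : s₀ + w ∈ Icc 0 (Λ / μ1) := ⟨by linarith [hs₀.1], by linarith⟩
  have hTm : Λ / μ1 ∈ Icc 0 (Λ / μ1) := ⟨hT1p.le, le_rfl⟩
  have h1 := hX hs₁m hTm hs₁m.2
  simp only at h1
  have h2 := hc1 _ hTm
  have h3 : Real.exp (-(Λ / 4)) * (a (k + 1) / 4) * Real.exp (-(μ1 / 2) * (s₀ + w)) ≤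
      G.P (k + 1) (x (Λ / μ1)) * Real.exp (-(μ1 / 2) * (Λ / μ1)) :=
    (mul_le_mul_of_nonneg_right hlow1 (Real.exp_pos _).le).trans h1
  have h4 : -(μ1 / 2) * (Λ / μ1) = -(Λ / 4) + -(Λ / 4) := by field_simp; norm_num
  have h5 : Real.exp (-(Λ / 4)) ≤ Real.exp (-(μ1 / 2) * (s₀ + w)) := by
    refine Real.exp_le_exp.2 ?_
    have h6 : μ1 / 2 * (s₀ + w) ≤ μ1 / 2 * (Λ / μ1 / 2) :=
      mul_le_mul_of_nonneg_left hs1 (by positivity)
    have h7 : μ1 / 2 * (Λ / μ1 / 2) = Λ / 4 := by field_simp; norm_num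
    linarith
  rw [h4, Real.exp_add] at h3
  have he := Real.exp_pos (-(Λ / 4))
  have h6 : Real.exp (-(Λ / 4)) * (a (k + 1) / 4) * Real.exp (-(Λ / 4)) ≤
      Real.exp (-(Λ / 4)) * (a (k + 1) / 4) * Real.exp (-(μ1 / 2) * (s₀ + w)) :=
    mul_le_mul_of_nonneg_left h5 (by positivity)
  have h7 : (a (k + 1) / 4) * (Real.exp (-(Λ / 4)) * Real.exp (-(Λ / 4))) ≤
      G.P (k + 1) (x (Λ / μ1)) * (Real.exp (-(Λ / 4)) * Real.exp (-(Λ / 4))) := by linarith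
  have h8 := le_of_mul_le_mul_right h7 (mul_pos he he)
  linarith

end

theorem t_FIRE (h : S_TREN) : S_FIRE := by
  intro G n₁ N M Λ a x hp hnN hx hen hZ hz hN
  have hE : ∀ t, 0 ≤ t → G.en (x t) ≤ ENNReal.ofReal (M ^ 2) := by
    intro t ht
    have h1 := h G N x hx 0 t le_rfl ht
    exact (le_self_add.trans h1.le).trans hen
  have h0 : ∀ n, n ≤ N → ∀ j ∈ (G.fin' n true).toFinset, 0 ≤ x 0 (Sum.inr j) := by
    intro n hn j hj
    have hm : G.sh' j = n ∧ G.ty' j = true := by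
      have := (Set.Finite.mem_toFinset _).1 hj
      exact this
    rcases lt_or_eq_of_le hn with h1 | h1
    · rw [hz j (by rw [hm.1]; exact h1)]
    · rw [hN j (by rw [hm.1]; exact h1), fl]
      have := (hp.a0 N).le
      split_ifs
      · positivity
      · simp
  have hPN : G.P N (x 0) = a N / 4 := by
    rw [P_eq]
    have h1 : ∀ j ∈ (G.fin' N true).toFinset, (√(G.ρ' N : ℝ))⁻¹ * x 0 (Sum.inr j) =
        (√(G.ρ' N : ℝ))⁻¹ ^ 2 * (a N / 4) := by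
      intro j hj
      have hm : G.sh' j = N ∧ G.ty' j = true := by
        have := (Set.Finite.mem_toFinset _).1 hj
        exact this
      rw [hN j hm.1, fl, if_pos hm]
      ring
    rw [Finset.sum_congr rfl h1, ← Finset.sum_mul,
      sq_one _ _ (G.pos' _) (cardf _ (G.card' _ true)), one_mul]
  have hP0 : ∀ n, n ≤ N → G.P n (x 0) ≤ a n / 4 := by
    intro n hn
    rcases lt_or_eq_of_le hn with h1 | h1
    · rw [P_eq, Finset.sum_eq_zero]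
      · have := (hp.a0 n).le
        positivity
      · intro j hj
        have hm : G.sh' j = n ∧ G.ty' j = true := by
          have := (Set.Finite.mem_toFinset _).1 hj
          exact this
        rw [hz j (by rw [hm.1]; exact h1), mul_zero]
    · rw [h1, hPN]
  have hΛ : 0 < Λ := by have := hp.L2; linarith
  have hFN : ∃ s ∈ Icc 0 (Λ / (G.r N * a N)), a N / 4 ≤ G.P N (x s) :=
    ⟨0, ⟨le_rfl, div_nonneg hΛ.le (mul_nonneg (G.r0 N) (hp.a0 N).le)⟩, hPN.ge⟩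
  -- downward induction
  have key : ∀ l, ∀ m, n₁ ≤ m → m + 1 + l = N → 
      (∃ s ∈ Icc 0 (Λ / (G.r m * a m)), a m / 4 ≤ G.P m (x s)) ∨
      (∃ s ∈ Icc 0 (Λ / (G.r (m + 1) * a (m + 1))), a (m + 1) / 4 ≤ G.P (m + 1) (x s)) := by
    intro l
    induction l with
    | zero =>
      intro m _ hmN
      right
      have : m + 1 = N := hmN
      rw [this]
      exact hFN
    | succ l ih =>
      intro m hm hmN
      rcases ih (m + 1) (by omega) (by omega) with h1 | h1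
      · exact Or.inr h1
      · rcases step hx hp hE hm (by omega) hZ h0 hP0 h1 with h2 | h2
        · exact Or.inr h2
        · exact Or.inl h2
  intro m hm hmN
  rcases key (N - m - 1) m hm (by omega) with h1 | h1
  · exact ⟨m, Or.inl rfl, h1⟩
  · exact ⟨m + 1, Or.inr rfl, h1⟩

end Pool.Agent.K1H52.NU
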