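import Pool.Agent.K1H52.NU.Wsi1

/-!
Weak-strong uniqueness for Leray-Hopf solutions in the usual sense (equation in integrated form).
The proof is the one of `K1H45.NU.Wsu`, with absolutely continuous functions.
-/

open Set Filter Topology MeasureTheory
open scoped ENNReal

set_option autoImplicit false

namespace Pool.Agent.K1H52.NU

open Pool.Agent.Y5 Pool.Agent.Y5.D Pool.Agent.Y5.E Pool.Agent.K1H54.LO Pool.Agent.K1H54.L2
  Pool.Agent.K1H54.NU Pool.Agent.K1H45.NU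
open Pool.Agent.Y301.G (wt wt_sum Bd)
open Pool.Agent.K1H17.UN (tst tst_ot tst_fin pr pr_orth pair_tst_pr ee inner_eq inner_ee ot_sub
  rap_sub fin_rap A1_one l2_nonneg A1_le l2_le wt_nonneg)
open Pool.Agent.K1H30.OP (sq0 sum1)

/-- **WSU**, equation in integrated form -/
theorem t_WSUI (hG : S_GRW) : S_WSUI := by
  intro s δ C T D Q β U V hSym hP hU hV h0 t₀ ht₀
  obtain ⟨C₁, hC₁⟩ := hSym.growth
  have hD := hSym.nonneg
  obtain ⟨T', hT0, hT'⟩ := exists_between ht₀.2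
  have h0T' : 0 < T' := lt_of_le_of_lt ht₀.1 hT0
  obtain ⟨M, hM⟩ := exB hU hT'
  have tri := tri_of hP
  obtain ⟨n, hn⟩ : ∃ n : Fam → Fam → Fam → ℝ, n = fun A B Z => bil A B Z + β A B Z := ⟨_, rfl⟩
  rw [← hn] at tri
  obtain ⟨Cn, hCn⟩ : ∃ c, c = 2 * Real.pi + |C| := ⟨_, rfl⟩
  rw [← hCn] at tri
  have hCn0 : 0 ≤ Cn := tri.C0
  have hIco : ∀ t ∈ Icc 0 T', t ∈ Ico 0 T := fun t ht => ⟨ht.1, lt_of_le_of_lt ht.2 hT'⟩
  have hM0 : 0 ≤ M := (hM 0 ⟨le_rfl, h0T'.le⟩).nonneg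
  have hw := wt_nonneg
  -- the limits of the nonlinear terms
  choose LV hLV1 hLV2 using fun a => hV.eqn (tf a) (tf_ot a) (tf_fin a)
  -- continuity of the coefficients
  have cV : ∀ k, ContinuousOn (fun τ => V τ k) (Ici 0) := fun k =>
    cont_coef (fun τ hτ => hV.ot τ hτ) (fun Z hZ hZf => by
      obtain ⟨L, -, hL⟩ := hV.eqn Z hZ hZf
      exact prim_cont hL) k
  have cU : ∀ k, ContinuousOn (fun τ => U τ k) (Ico 0 T) := fun k =>
    cont_coef (fun τ hτ => hU.ot τ hτ) (fun Z hZ hZf τ hτ =>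
      (hU.eqn Z hZ hZf τ hτ).continuousWithinAt) k
  -- energies
  obtain ⟨e₀, he₀⟩ : ∃ e, e = ∑' k, ‖V 0 k‖ ^ 2 := ⟨_, rfl⟩
  have he0 : 0 ≤ e₀ := by rw [he₀]; exact tsum_nonneg fun _ => by positivity
  have EV : ∀ t, 0 ≤ t → Summable (fun k => ‖V t k‖ ^ 2) ∧ ∀ J : ℕ, ∑' k, ‖V t k‖ ^ 2 +
      2 * ∫ τ in (0 : ℝ)..t, ∑ k ∈ Fb J, D k * ‖V τ k‖ ^ 2 ≤ e₀ := fun t ht => by
    rw [he₀]; exact energyV hD hV.fin hV.e0 cV ht
  have hVe : ∀ t, 0 ≤ t → ∑' k, ‖V t k‖ ^ 2 ≤ e₀ := fun t ht => by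
    have h1 := (EV t ht).2 0
    have h2 : 0 ≤ ∫ τ in (0 : ℝ)..t, ∑ k ∈ Fb 0, D k * ‖V τ k‖ ^ 2 :=
      intervalIntegral.integral_nonneg ht fun τ _ =>
        Finset.sum_nonneg fun k _ => mul_nonneg (hD k) (sq_nonneg _)
    linarith
  have EU : ∀ t ∈ Icc 0 T', ∀ J : ℕ, ∑' k, ‖U t k‖ ^ 2 +
      2 * ∫ τ in (0 : ℝ)..t, ∑ k ∈ Fb J, D k * ‖U τ k‖ ^ 2 ≤ ∑' k, ‖U 0 k‖ ^ 2 :=
    fun t ht J => energyU hD hC₁ hP hU cU (hIco t ht) J
  have sU : ∀ t ∈ Icc 0 T', Summable (fun k => ‖U t k‖ ^ 2) := fun t ht => (hM t ht).sq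
  -- the difference
  obtain ⟨f, hf⟩ : ∃ f : ℝ → ℝ, ∀ t, f t = ∑' k, ‖V t k - U t k‖ ^ 2 := ⟨_, fun _ => rfl⟩
  obtain ⟨a₁, ha₁⟩ : ∃ a, a = M * ∑' k, wt k := ⟨_, rfl⟩
  obtain ⟨b₁, hb₁⟩ : ∃ b, b = M * (1 + ∑' k, wt k) := ⟨_, rfl⟩
  have ha0 : 0 ≤ a₁ := by rw [ha₁]; positivity
  have hb0 : 0 ≤ b₁ := by rw [hb₁]; positivity
  have hf0 : ∀ t, 0 ≤ f t := fun t => by rw [hf]; exact tsum_nonneg fun _ => by positivity
  have hfe : ∀ t ∈ Icc 0 T', f t = ∑' k, ‖V t k‖ ^ 2 + ∑' k, ‖U t k‖ ^ 2 -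
      2 * pair (V t) (U t) := fun t ht => by
    rw [hf]; exact (pair_trn_tendsto (EV t ht.1).1 (sU t ht)).2
  have hfM : ∀ t ∈ Icc 0 T', f t ≤ 2 * e₀ + 2 * b₁ ^ 2 := by
    intro t ht
    have h1 : ∀ k, ‖V t k - U t k‖ ^ 2 ≤ 2 * ‖V t k‖ ^ 2 + 2 * ‖U t k‖ ^ 2 := fun k => by
      have h3 := norm_sub_le (V t k) (U t k)
      have h4 : ‖V t k - U t k‖ ^ 2 ≤ (‖V t k‖ + ‖U t k‖) ^ 2 :=
        pow_le_pow_left₀ (norm_nonneg _) h3 2
      nlinarith [sq_nonneg (‖V t k‖ - ‖U t k‖)]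
    have s1 := (EV t ht.1).1
    have s2 := sU t ht
    have s3 := (s1.mul_left 2).add (s2.mul_left 2)
    have h5 := (Summable.of_nonneg_of_le (fun _ => by positivity) h1 s3).tsum_le_tsum h1 s3
    rw [(s1.mul_left 2).tsum_add (s2.mul_left 2), tsum_mul_left, tsum_mul_left] at h5
    have h6 := hVe t ht.1
    have h7 : ∑' k, ‖U t k‖ ^ 2 ≤ b₁ ^ 2 := by
      rw [← l2_sq, hb₁]
      exact pow_le_pow_left₀ (l2_nonneg _) (l2_le (hM t ht)) 2
    rw [hf]
    linarith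
  -- measurability
  have cVU : ∀ k, ContinuousOn (fun τ => ‖V τ k - U τ k‖ ^ 2) (Icc 0 T') := fun k =>
    (((cV k).mono Icc_subset_Ici_self).sub ((cU k).mono hIco)).norm.pow 2
  have mf : AEStronglyMeasurable f (volume.restrict (Icc 0 T')) := by
    have h1 := meas_sum (A := fun τ k => ‖V τ k - U τ k‖ ^ 2) measurableSet_Icc cVU
      fun _ _ => by positivity
    have h2 : f = fun τ => ∑' k, ‖V τ k - U τ k‖ ^ 2 := funext hf
    rw [h2]
    exact h1
  obtain ⟨w, hwd⟩ : ∃ w : ℕ → ℝ → ℝ, ∀ J τ, w J τ = √(Pool.Agent.K1H45.NU.tl J (fun k => ‖V τ k‖ ^ 2)) :=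
    ⟨_, fun _ _ => rfl⟩
  have mw : ∀ J, AEStronglyMeasurable (w J) (volume.restrict (Icc 0 T')) := by
    intro J
    have h1 := meas_sum (A := fun τ k => if k ∈ Fb J then 0 else ‖V τ k‖ ^ 2)
      (S := Icc 0 T') measurableSet_Icc (fun k => by
        by_cases hk : k ∈ Fb J
        · simp only [if_pos hk]
          exact continuousOn_const
        · simp only [if_neg hk]
          exact ((cV k).mono Icc_subset_Ici_self).norm.pow 2) (fun τ k => by
        split_ifs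
        · exact le_rfl
        · positivity)
    have h2 : w J = fun τ => √(∑' k, if k ∈ Fb J then 0 else ‖V τ k‖ ^ 2) :=
      funext fun τ => hwd J τ
    rw [h2]
    exact Real.continuous_sqrt.comp_aestronglyMeasurable h1
  have hwM : ∀ J, ∀ t ∈ Icc 0 T', 0 ≤ w J t ∧ w J t ≤ √e₀ := fun J t ht => by
    rw [hwd]
    refine ⟨Real.sqrt_nonneg _, Real.sqrt_le_sqrt ?_⟩
    exact (tl_le (EV t ht.1).1 (fun _ => by positivity) J).trans (hVe t ht.1)
  -- the bound of the derivative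
  obtain ⟨G, hGd⟩ : ∃ G : ℕ → ℝ → ℝ, ∀ J τ, G J τ =
      2 * (Cn * (a₁ * f τ + e₀ * (M * Pool.Agent.K1H45.NU.tl J wt) + b₁ * a₁ * w J τ)) := ⟨_, fun _ _ => rfl⟩
  have htw : ∀ J, 0 ≤ Pool.Agent.K1H45.NU.tl J wt ∧ Pool.Agent.K1H45.NU.tl J wt ≤ ∑' k, wt k := fun J =>
    ⟨tl_nonneg (fun k => by unfold wt; positivity) J,
      tl_le wt_sum (fun k => by unfold wt; positivity) J⟩
  obtain ⟨KG, hKG⟩ : ∃ K, K = 2 * (Cn * (a₁ * (2 * e₀ + 2 * b₁ ^ 2) +
      e₀ * (M * ∑' k, wt k) + b₁ * a₁ * √e₀)) := ⟨_, rfl⟩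
  have hGM : ∀ J, ∀ t ∈ Icc 0 T', ‖G J t‖ ≤ KG := by
    intro J t ht
    obtain ⟨h1, h2⟩ := hwM J t ht
    obtain ⟨h3, h4⟩ := htw J
    have h5 := hfM t ht
    have h6 := hf0 t
    rw [hGd, hKG, Real.norm_of_nonneg (by positivity)]
    gcongr
  have mG : ∀ J, AEStronglyMeasurable (G J) (volume.restrict (Icc 0 T')) := by
    intro J
    have h2 : G J = fun τ => 2 * (Cn * (a₁ * f τ + e₀ * (M * Pool.Agent.K1H45.NU.tl J wt) + b₁ * a₁ * w J τ)) :=
      funext fun τ => hGd J τ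
    rw [h2]
    exact ((((mf.const_mul a₁).add aestronglyMeasurable_const).add
      ((mw J).const_mul (b₁ * a₁))).const_mul Cn).const_mul 2
  have iG : ∀ J, IntegrableOn (G J) (Icc 0 T') := fun J =>
    IntegrableOn.of_bound measure_Icc_lt_top (mG J) KG
      ((ae_restrict_iff' measurableSet_Icc).2 (Eventually.of_forall fun t ht => hGM J t ht))
  -- the inequality for every `J`
  have key : ∀ J : ℕ, ∀ t ∈ Icc 0 T', ∑' k, ‖V t k‖ ^ 2 + ∑' k, ‖U t k‖ ^ 2 -
      2 * pair (V t) (trn J (U t)) ≤ ∑' k, ‖V 0 k‖ ^ 2 + ∑' k, ‖U 0 k‖ ^ 2 -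
      2 * pair (V 0) (trn J (U 0)) + ∫ τ in (0 : ℝ)..t, G J τ := by
    intro J t ht
    have hsub : Icc 0 t ⊆ Icc 0 T' := Icc_subset_Icc_right ht.2
    have hcA : ContinuousOn (fun τ => ∑ k ∈ Fb J, D k * ‖V τ k‖ ^ 2) (Icc 0 t) :=
      continuousOn_finsetSum _ fun k _ =>
        continuousOn_const.mul (((cV k).mono Icc_subset_Ici_self).norm.pow 2)
    have hcB : ContinuousOn (fun τ => ∑ k ∈ Fb J, D k * ‖U τ k‖ ^ 2) (Icc 0 t) :=
      continuousOn_finsetSum _ fun k _ => continuousOn_const.mul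
        (((cU k).mono fun x hx => hIco x (hsub hx)).norm.pow 2)
    have hGi := (iG J).mono_set hsub
    have hφi : IntervalIntegrable (fun τ => 2 * (∑ k ∈ Fb J, D k * ‖V τ k‖ ^ 2) +
        2 * (∑ k ∈ Fb J, D k * ‖U τ k‖ ^ 2) + G J τ) volume 0 t := by
      rw [intervalIntegrable_iff_integrableOn_Icc_of_le ht.1]
      exact (((continuousOn_const.mul hcA).add (continuousOn_const.mul hcB)).integrableOn_Icc).add
        hGi
    have h1 := ac_prod (Ti J) ht.1 (fun a τ => pair (V τ) (tf a)) (fun a τ => pair (U τ) (tf a))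
      (fun a τ => -lpD D (V τ) (tf a) + LV a τ)
      (fun a τ => -lpD D (U τ) (tf a) + n (U τ) (U τ) (tf a))
      (fun τ => 2 * (∑ k ∈ Fb J, D k * ‖V τ k‖ ^ 2) +
        2 * (∑ k ∈ Fb J, D k * ‖U τ k‖ ^ 2) + G J τ)
      (fun a => |C₁| * M * (∑' k, ‖tf a k‖) + Cn * (b₁ * a₁ * l2 (tf a)))
      (fun a _ => (hLV2 a t ht.1).1)
      (fun a _ τ hτ => (hLV2 a τ hτ.1).2)
      (fun a _ τ hτ => by
        have h2 := hU.eqn (tf a) (tf_ot a) (tf_fin a) τ (hIco τ (hsub hτ))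
        refine (h2.mono fun y hy => hIco y (hsub hy)).congr_deriv ?_
        rw [hn]
        ring)
      (fun a _ τ hτ => by
        have hτ' := hsub hτ
        have hτT := hIco τ hτ'
        have oU := hU.ot τ hτT
        have rU := solrap hU hτT
        have h2 := tri.low _ _ _ oU rU oU rU (tf_ot a) (fin_rap (tf_fin a))
        have h3 : l2 (U τ) * A1 1 (U τ) * l2 (tf a) ≤ b₁ * a₁ * l2 (tf a) := by
          refine mul_le_mul_of_nonneg_right ?_ (l2_nonneg _)
          rw [hb₁, ha₁]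
          exact mul_le_mul (l2_le (hM τ hτ')) (A1_le (hM τ hτ'))
            (Pool.Agent.K1H30.OP.A1_nonneg 1 (U τ)) (by positivity)
        have h4 : |lpD D (U τ) (tf a)| ≤ |C₁| * M * ∑' k, ‖tf a k‖ := by
          have s1 : Summable fun k => ‖tf a k‖ :=
            summable_of_hasFiniteSupport ((tf_fin a).subset fun k hk => by
              simpa using hk)
          have h5 : ∀ k, ‖D k * (inner ℝ (U τ k) (tf a k) : ℝ)‖ ≤ |C₁| * M * ‖tf a k‖ := by
            intro k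
            have h6 := sym_bd hD hC₁ (hM τ hτ') k
            rw [norm_mul, Real.norm_of_nonneg (hD k)]
            calc D k * ‖(inner ℝ (U τ k) (tf a k) : ℝ)‖
                ≤ D k * (‖U τ k‖ * ‖tf a k‖) :=
                  mul_le_mul_of_nonneg_left (norm_inner_le_norm _ _) (hD k)
              _ = D k * ‖U τ k‖ * ‖tf a k‖ := by ring
              _ ≤ |C₁| * M * ‖tf a k‖ := mul_le_mul_of_nonneg_right h6 (norm_nonneg _)
          have h7 := tsum_of_norm_bounded (s1.mul_left (|C₁| * M)).hasSum h5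
          rw [tsum_mul_left] at h7
          exact h7
        have h8 := (abs_add_le (-lpD D (U τ) (tf a)) (n (U τ) (U τ) (tf a)))
        rw [abs_neg] at h8
        have h9 := mul_le_mul_of_nonneg_left h3 hCn0
        linarith)
      hφi (by
        have hae : ∀ᵐ x, ∀ a ∈ Ti J, x ∈ Ioi (0 : ℝ) → Tendsto (fun K : ℕ =>
            bil (trn K (V x)) (trn K (V x)) (tf a) + β (trn K (V x)) (trn K (V x)) (tf a)) atTop
            (𝓝 (LV a x)) :=
          (Finset.eventually_all _).2 fun a _ => (ae_restrict_iff' measurableSet_Ioi).1 (hLV1 a)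
        filter_upwards [hae] with x hx hx2
        have hx' : x ∈ Icc 0 T' := hsub (Ioo_subset_Icc_self hx2)
        have hxT := hIco x hx'
        have oU := hU.ot x hxT
        have oV := hV.ot x hx'.1
        have rU := solrap hU hxT
        have hLx : Tendsto (fun K : ℕ => n (trn K (V x)) (trn K (V x)) (trn J (U x))) atTop
            (𝓝 (∑ a ∈ Ti J, LV a x * pair (U x) (tf a))) := by
          have h2 : Tendsto (fun K : ℕ => ∑ a ∈ Ti J, (bil (trn K (V x)) (trn K (V x)) (tf a) +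
              β (trn K (V x)) (trn K (V x)) (tf a)) * pair (U x) (tf a)) atTop
              (𝓝 (∑ a ∈ Ti J, LV a x * pair (U x) (tf a))) :=
            tendsto_finsetSum _ fun a ha => (hx a ha hx2.1).mul_const _
          refine h2.congr fun K => ?_
          rw [hn]
          exact (n_ex hP J (trn_ot K oV) (trn_rap K _) (trn_ot K oV) (trn_rap K _) oU).symm
        have e0 : ∑ a ∈ Ti J, ((-lpD D (V x) (tf a) + LV a x) * pair (U x) (tf a) +
            pair (V x) (tf a) * (-lpD D (U x) (tf a) + n (U x) (U x) (tf a))) =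
            (-lpD D (V x) (trn J (U x)) + ∑ a ∈ Ti J, LV a x * pair (U x) (tf a)) +
            (-lpD D (U x) (trn J (V x)) + n (U x) (U x) (trn J (V x))) := by
          have hnx : n (U x) (U x) (trn J (V x)) =
              ∑ a ∈ Ti J, n (U x) (U x) (tf a) * pair (V x) (tf a) := by
            rw [hn]
            exact n_ex hP J oU rU oU rU oV
          rw [lp_ex hSym.even J oV oU, lp_ex hSym.even J oU oV, hnx, ← Finset.sum_neg_distrib,
            ← Finset.sum_neg_distrib, ← Finset.sum_add_distrib, ← Finset.sum_add_distrib,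
            ← Finset.sum_add_distrib]
          refine Finset.sum_congr rfl fun a _ => ?_
          ring
        have e1 := tri.est_lim oV (EV x hx'.1).1 oU rU (hM x hx') (hVe x hx'.1) J hLx
        rw [← hf, ← ha₁, ← hb₁, ← hwd] at e1
        have e2 := neg_abs_le ((∑ a ∈ Ti J, LV a x * pair (U x) (tf a)) +
          n (U x) (U x) (trn J (V x)))
        have e3 : lpD D (V x) (trn J (U x)) = lpD D (U x) (trn J (V x)) := by
          rw [lpD_trn, lpD_trn]
          exact Finset.sum_congr rfl fun k _ => by rw [real_inner_comm]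
        have e4 : 2 * lpD D (V x) (trn J (U x)) ≤ ∑ k ∈ Fb J, D k * ‖V x k‖ ^ 2 +
            ∑ k ∈ Fb J, D k * ‖U x k‖ ^ 2 := by
          rw [lpD_trn, Finset.mul_sum, ← Finset.sum_add_distrib]
          refine Finset.sum_le_sum fun k _ => ?_
          have e5 := real_inner_le_norm (V x k) (U x k)
          have e6 : 2 * (inner ℝ (V x k) (U x k) : ℝ) ≤ ‖V x k‖ ^ 2 + ‖U x k‖ ^ 2 := by
            nlinarith [sq_nonneg (‖V x k‖ - ‖U x k‖)]
          have e7 := mul_le_mul_of_nonneg_left e6 (hD k)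
          linarith
        rw [e0, ← e3, hGd]
        linarith)
    have hUt : OT (U t) := hU.ot t (hIco t ht)
    have hU0 : OT (U 0) := hU.ot 0 (hIco 0 ⟨le_rfl, h0T'.le⟩)
    rw [← pair_ex J (hV.ot t ht.1) hUt, ← pair_ex J (hV.ot 0 le_rfl) hU0] at h1
    have iA : IntervalIntegrable (fun τ => ∑ k ∈ Fb J, D k * ‖V τ k‖ ^ 2) volume 0 t := by
      rw [intervalIntegrable_iff_integrableOn_Icc_of_le ht.1]
      exact hcA.integrableOn_Icc
    have iB : IntervalIntegrable (fun τ => ∑ k ∈ Fb J, D k * ‖U τ k‖ ^ 2) volume 0 t := by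
      rw [intervalIntegrable_iff_integrableOn_Icc_of_le ht.1]
      exact hcB.integrableOn_Icc
    have iG' : IntervalIntegrable (G J) volume 0 t := by
      rw [intervalIntegrable_iff_integrableOn_Icc_of_le ht.1]
      exact hGi
    rw [intervalIntegral.integral_add ((iA.const_mul 2).add (iB.const_mul 2)) iG',
      intervalIntegral.integral_add (iA.const_mul 2) (iB.const_mul 2),
      intervalIntegral.integral_const_mul, intervalIntegral.integral_const_mul] at h1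
    have h2 := (EV t ht.1).2 J
    have h3 := EU t ht J
    rw [he₀] at h2
    linarith
  -- passing to the limit
  have hfint : ∀ t ∈ Icc 0 T', f t ≤ 2 * (Cn * a₁) * ∫ τ in (0 : ℝ)..t, f τ := by
    intro t ht
    have hsub : Icc 0 t ⊆ Icc 0 T' := Icc_subset_Icc_right ht.2
    have l1 : Tendsto (fun J : ℕ => ∑' k, ‖V t k‖ ^ 2 + ∑' k, ‖U t k‖ ^ 2 -
        2 * pair (V t) (trn J (U t))) atTop (𝓝 (f t)) := by
      rw [hfe t ht]
      exact tendsto_const_nhds.sub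
        ((pair_trn_tendsto (EV t ht.1).1 (sU t ht)).1.const_mul 2)
    have h00 : (0 : ℝ) ∈ Icc 0 T' := ⟨le_rfl, h0T'.le⟩
    have l2' : Tendsto (fun J : ℕ => ∑' k, ‖V 0 k‖ ^ 2 + ∑' k, ‖U 0 k‖ ^ 2 -
        2 * pair (V 0) (trn J (U 0))) atTop (𝓝 (f 0)) := by
      rw [hfe 0 h00]
      exact tendsto_const_nhds.sub
        ((pair_trn_tendsto (EV 0 le_rfl).1 (sU 0 h00)).1.const_mul 2)
    have hf00 : f 0 = 0 := by
      rw [hf, h0]
      simp
    rw [hf00] at l2'
    have l3 : Tendsto (fun J : ℕ => ∫ τ in (0 : ℝ)..t, G J τ) atTop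
        (𝓝 (∫ τ in (0 : ℝ)..t, 2 * (Cn * (a₁ * f τ)))) := by
      refine intervalIntegral.tendsto_integral_filter_of_dominated_convergence (fun _ => KG)
        ?_ ?_ ?_ ?_
      · refine Eventually.of_forall fun J => ?_
        rw [uIoc_of_le ht.1]
        exact (mG J).mono_set (Ioc_subset_Icc_self.trans hsub)
      · refine Eventually.of_forall fun J => Eventually.of_forall fun τ hτ => ?_
        rw [uIoc_of_le ht.1] at hτ
        exact hGM J τ (hsub (Ioc_subset_Icc_self hτ))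
      · exact intervalIntegrable_const
      · refine Eventually.of_forall fun τ hτ => ?_
        rw [uIoc_of_le ht.1] at hτ
        have hτ' := hsub (Ioc_subset_Icc_self hτ)
        have m1 : Tendsto (fun J => Pool.Agent.K1H45.NU.tl J wt) atTop (𝓝 0) :=
          tl_tendsto wt_sum fun k => by unfold wt; positivity
        have m2 : Tendsto (fun J => w J τ) atTop (𝓝 0) := by
          have m3 := (Real.continuous_sqrt.tendsto 0).comp
            (tl_tendsto (EV τ hτ'.1).1 (fun _ => by positivity))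
          rw [Real.sqrt_zero] at m3
          exact m3.congr fun J => (hwd J τ).symm
        have m4 : Tendsto (fun J => 2 * (Cn * (a₁ * f τ + e₀ * (M * Pool.Agent.K1H45.NU.tl J wt) +
            b₁ * a₁ * w J τ))) atTop
            (𝓝 (2 * (Cn * (a₁ * f τ + e₀ * (M * 0) + b₁ * a₁ * 0)))) := by
          refine Tendsto.const_mul _ (Tendsto.const_mul _ (Tendsto.add (Tendsto.add ?_ ?_) ?_))
          · exact tendsto_const_nhds
          · exact (m1.const_mul M).const_mul e₀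
          · exact m2.const_mul _
        have m5 : 2 * (Cn * (a₁ * f τ + e₀ * (M * 0) + b₁ * a₁ * 0)) =
            2 * (Cn * (a₁ * f τ)) := by ring
        rw [m5] at m4
        exact m4.congr fun J => (hGd J τ).symm
    have l4 := le_of_tendsto_of_tendsto' l1 (l2'.add l3) fun J => key J t ht
    rw [zero_add] at l4
    refine l4.trans (le_of_eq ?_)
    rw [← intervalIntegral.integral_const_mul]
    refine intervalIntegral.integral_congr fun τ _ => ?_
    ring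
  -- Gronwall
  have hz := hG (2 * (Cn * a₁)) (2 * e₀ + 2 * b₁ ^ 2) T' f (by positivity)
    (fun t ht => ⟨hf0 t, hfM t ht⟩) mf hfint t₀ ⟨ht₀.1, hT0.le⟩
  have ht₀' : t₀ ∈ Icc 0 T' := ⟨ht₀.1, hT0.le⟩
  funext k
  have h1 : ∀ k, ‖V t₀ k - U t₀ k‖ ^ 2 ≤ 2 * ‖V t₀ k‖ ^ 2 + 2 * ‖U t₀ k‖ ^ 2 := fun k => by
    have h3 := norm_sub_le (V t₀ k) (U t₀ k)
    have h4 : ‖V t₀ k - U t₀ k‖ ^ 2 ≤ (‖V t₀ k‖ + ‖U t₀ k‖) ^ 2 :=
      pow_le_pow_left₀ (norm_nonneg _) h3 2
    nlinarith [sq_nonneg (‖V t₀ k‖ - ‖U t₀ k‖)]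
  have s3 := ((EV t₀ ht₀.1).1.mul_left 2).add ((sU t₀ ht₀').mul_left 2)
  have s4 := Summable.of_nonneg_of_le (fun _ => by positivity) h1 s3
  have h5 := s4.le_tsum k (fun _ _ => by positivity)
  rw [← hf, hz] at h5
  have h6 : ‖V t₀ k - U t₀ k‖ ^ 2 = 0 := le_antisymm h5 (by positivity)
  have h7 : ‖V t₀ k - U t₀ k‖ = 0 := (pow_eq_zero_iff two_ne_zero).1 h6
  exact sub_eq_zero.1 (norm_eq_zero.1 h7)

end Pool.Agent.K1H52.NU
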