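import Pool.Agent.K1H45.NU.Wsu
import Pool.Agent.K1H54.NU.Stm6

/-!
Weak-strong uniqueness for Leray-Hopf solutions in the usual sense (equation in integrated form),
part 1: a product rule for absolutely continuous functions, linearity.
-/

open Set Filter Topology MeasureTheory
open scoped ENNReal

set_option autoImplicit false

namespace Pool.Agent.K1H52.NU

open Pool.Agent.Y5 Pool.Agent.Y5.D Pool.Agent.Y5.E Pool.Agent.K1H54.LO Pool.Agent.K1H54.L2
  Pool.Agent.K1H54.NU Pool.Agent.K1H45.NU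
open Pool.Agent.Y301.G (wt wt_sum Bd)
open Pool.Agent.Y248.ND (vec_neg)
open Pool.Agent.K1H17.UN (tst tst_ot tst_fin pr pr_orth pair_tst_pr ee inner_eq inner_ee ot_sub
  rap_sub fin_rap A1_one l2_nonneg A1_le l2_le wt_nonneg)
open Pool.Agent.K1H30.OP (sq0 sum1 BB BB_ot BB_rap bil_eq_pair)

/-! ### Absolutely continuous functions -/

lemma ac_const (c a b : ℝ) : AbsolutelyContinuousOnInterval (fun _ : ℝ => c) a b :=
  (contDiff_const.contDiffOn).absolutelyContinuousOnInterval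

lemma ac_sum {ι : Type*} (s : Finset ι) {f : ι → ℝ → ℝ} {a b : ℝ}
    (h : ∀ i ∈ s, AbsolutelyContinuousOnInterval (f i) a b) :
    AbsolutelyContinuousOnInterval (fun x => ∑ i ∈ s, f i x) a b := by
  classical
  induction s using Finset.induction_on with
  | empty => simpa using ac_const 0 a b
  | insert i s hi ih =>
    simp only [Finset.sum_insert hi]
    exact (h i (Finset.mem_insert_self i s)).add
      (ih fun j hj => h j (Finset.mem_insert_of_mem hj))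

/-- An integrated product rule with an estimate. -/
theorem ac_prod {ι : Type*} (s : Finset ι) {t : ℝ} (ht : 0 ≤ t) (P Q F Q' : ι → ℝ → ℝ)
    (φ : ℝ → ℝ) (K : ι → ℝ)
    (hF : ∀ a ∈ s, IntervalIntegrable (F a) volume 0 t)
    (hP : ∀ a ∈ s, ∀ τ ∈ Icc 0 t, P a τ = P a 0 + ∫ x in (0 : ℝ)..τ, F a x)
    (hQ : ∀ a ∈ s, ∀ τ ∈ Icc 0 t, HasDerivWithinAt (Q a) (Q' a τ) (Icc 0 t) τ)
    (hQK : ∀ a ∈ s, ∀ τ ∈ Icc 0 t, |Q' a τ| ≤ K a)
    (hφ : IntervalIntegrable φ volume 0 t)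
    (h : ∀ᵐ τ, τ ∈ Ioo 0 t → -(2 * ∑ a ∈ s, (F a τ * Q a τ + P a τ * Q' a τ)) ≤ φ τ) :
    -(2 * ∑ a ∈ s, P a t * Q a t) ≤ -(2 * ∑ a ∈ s, P a 0 * Q a 0) + ∫ τ in (0 : ℝ)..t, φ τ := by
  classical
  have h00 : (0 : ℝ) ∈ Icc 0 t := ⟨le_rfl, ht⟩
  have htt : t ∈ Icc 0 t := ⟨ht, le_rfl⟩
  obtain ⟨G, hG⟩ : ∃ G : ι → ℝ → ℝ, ∀ a τ, G a τ = P a 0 + ∫ x in (0 : ℝ)..τ, F a x :=
    ⟨_, fun _ _ => rfl⟩
  have acG : ∀ a ∈ s, AbsolutelyContinuousOnInterval (G a) 0 t := fun a ha => by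
    have h1 := (ac_const (P a 0) 0 t).add
      ((hF a ha).absolutelyContinuousOnInterval_intervalIntegral (c := 0) left_mem_uIcc)
    have h2 : G a = fun τ => P a 0 + ∫ x in (0 : ℝ)..τ, F a x := funext (hG a)
    rw [h2]
    exact h1
  have acQ : ∀ a ∈ s, AbsolutelyContinuousOnInterval (Q a) 0 t := fun a ha => by
    refine LipschitzOnWith.absolutelyContinuousOnInterval (K := (K a).toNNReal) ?_
    rw [uIcc_of_le ht]
    refine Convex.lipschitzOnWith_of_nnnorm_hasDerivWithin_le (convex_Icc 0 t) (hQ a ha)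
      fun τ hτ => ?_
    rw [← NNReal.coe_le_coe, coe_nnnorm, Real.norm_eq_abs,
      Real.coe_toNNReal _ ((abs_nonneg _).trans (hQK a ha τ hτ))]
    exact hQK a ha τ hτ
  obtain ⟨g, hg⟩ : ∃ g : ℝ → ℝ, g = fun τ => ∑ a ∈ s, G a τ * Q a τ := ⟨_, rfl⟩
  have acg : AbsolutelyContinuousOnInterval g 0 t := by
    rw [hg]
    exact ac_sum s fun a ha => (acG a ha).mul (acQ a ha)
  have hGP : ∀ a ∈ s, ∀ τ ∈ Icc 0 t, G a τ = P a τ := fun a ha τ hτ => by
    rw [hG, hP a ha τ hτ]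
  have e1 := acg.integral_deriv_eq_sub
  have e2 : ∀ᵐ τ, τ ∈ Ioo 0 t → -(2 * deriv g τ) ≤ φ τ := by
    have e3 : ∀ᵐ τ, ∀ a ∈ s, τ ∈ uIcc 0 t → ∀ c ∈ uIcc 0 t,
        HasDerivAt (fun x => ∫ y in c..x, F a y) (F a τ) τ :=
      (Finset.eventually_all s).2 fun a ha => (hF a ha).ae_hasDerivAt_integral
    filter_upwards [h, e3] with τ h1 h2 hτ
    have hτ' : τ ∈ Icc 0 t := Ioo_subset_Icc_self hτ
    have h3 : HasDerivAt g (∑ a ∈ s, (F a τ * Q a τ + P a τ * Q' a τ)) τ := by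
      rw [hg]
      refine HasDerivAt.fun_sum fun a ha => ?_
      have h4 : HasDerivAt (G a) (F a τ) τ := by
        have h5 := (h2 a ha (by rw [uIcc_of_le ht]; exact hτ') 0 left_mem_uIcc).const_add (P a 0)
        have h6 : G a = fun τ => P a 0 + ∫ x in (0 : ℝ)..τ, F a x := funext (hG a)
        rw [h6]
        exact h5
      have h7 : HasDerivAt (Q a) (Q' a τ) τ := (hQ a ha τ hτ').hasDerivAt (Icc_mem_nhds hτ.1 hτ.2)
      have h8 := h4.mul h7
      rw [hGP a ha τ hτ'] at h8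
      exact h8
    rw [h3.deriv]
    exact h1 hτ
  have e4 : ∫ τ in (0 : ℝ)..t, -(2 * deriv g τ) ≤ ∫ τ in (0 : ℝ)..t, φ τ := by
    refine intervalIntegral.integral_mono_ae_restrict ht
      ((acg.intervalIntegrable_deriv.const_mul 2).neg) hφ ?_
    rw [← restrict_Ioo_eq_restrict_Icc]
    exact (ae_restrict_iff' measurableSet_Ioo).2 e2
  rw [intervalIntegral.integral_neg, intervalIntegral.integral_const_mul, e1] at e4
  have e5 : g t = ∑ a ∈ s, P a t * Q a t := by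
    rw [hg]
    exact Finset.sum_congr rfl fun a ha => by rw [hGP a ha t htt]
  have e6 : g 0 = ∑ a ∈ s, P a 0 * Q a 0 := by
    rw [hg]
    exact Finset.sum_congr rfl fun a ha => by rw [hGP a ha 0 h00]
  rw [e5, e6] at e4
  linarith

/-- continuity of a primitive -/
lemma prim_cont {p F : ℝ → ℝ} (h : ∀ t, 0 ≤ t → IntervalIntegrable F volume 0 t ∧
    p t = p 0 + ∫ τ in (0 : ℝ)..t, F τ) : ContinuousOn p (Ici 0) := by
  intro x hx
  have hx0 : (0 : ℝ) ≤ x := hx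
  have h1 : ContinuousOn (fun b => ∫ τ in (0 : ℝ)..b, F τ) (uIcc 0 (x + 1)) :=
    intervalIntegral.continuousOn_primitive_interval' (h (x + 1) (by linarith)).1 left_mem_uIcc
  rw [uIcc_of_le (by linarith)] at h1
  have h2 : ContinuousOn p (Icc 0 (x + 1)) :=
    (continuousOn_const.add h1).congr fun τ hτ => (h τ hτ.1).2
  refine (h2 x ⟨hx0, by linarith⟩).mono_of_mem_nhdsWithin ?_
  refine mem_nhdsWithin.2 ⟨Iio (x + 1), isOpen_Iio, by simp, fun y hy => ⟨hy.2, le_of_lt hy.1⟩⟩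

/-! ### The test functions -/

/-- the test functions -/
noncomputable def tf (a : Z3 × Fin 3) : Fam := tst a.1 (pr a.1 (ee a.2))

lemma tf_ot (a : Z3 × Fin 3) : OT (tf a) := tst_ot (pr_orth a.1 _)

lemma tf_fin (a : Z3 × Fin 3) : {k | tf a k ≠ 0}.Finite := tst_fin _ _

/-- the indices of the test functions for the ball of radius `J` -/
noncomputable def Ti (J : ℕ) : Finset (Z3 × Fin 3) := Fb J ×ˢ Finset.univ

lemma pair_ex (J : ℕ) {X Y : Fam} (hX : OT X) (hY : OT Y) :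
    pair X (trn J Y) = ∑ a ∈ Ti J, pair X (tf a) * pair Y (tf a) := by
  unfold Ti tf
  rw [pair_trn, Finset.sum_product]
  refine Finset.sum_congr rfl fun k _ => ?_
  rw [inner_eq]
  refine Finset.sum_congr rfl fun i _ => ?_
  rw [pair_tst_pr hX, pair_tst_pr hY]

lemma pair_comm' (X Y : Fam) : pair X Y = pair Y X := by
  unfold pair
  exact tsum_congr fun k => real_inner_comm _ _

lemma lp_pair (D : Z3 → ℝ) (X Z : Fam) : lpD D X Z = pair (fun k => D k • X k) Z := by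
  unfold lpD pair
  exact tsum_congr fun k => by rw [real_inner_smul_left]

lemma lp_ot {D : Z3 → ℝ} (hD : ∀ k, D (-k) = D k) {X : Fam} (hX : OT X) :
    OT (fun k => D k • X k) where
  odd := fun k => by rw [hD, hX.odd, smul_neg]
  tan := fun k => by rw [real_inner_smul_right, hX.tan, mul_zero]

lemma lp_ex {D : Z3 → ℝ} (hD : ∀ k, D (-k) = D k) (J : ℕ) {X Y : Fam} (hX : OT X) (hY : OT Y) :
    lpD D X (trn J Y) = ∑ a ∈ Ti J, lpD D X (tf a) * pair Y (tf a) := by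
  rw [lp_pair, pair_ex J (lp_ot hD hX) hY]
  exact Finset.sum_congr rfl fun a _ => by rw [lp_pair]

lemma n_ex {s δ C : ℝ} {Q : Z3 → Prop} {β : Fam → Fam → Fam → ℝ} (h : FPert s δ C Q β) (J : ℕ)
    {A B Y : Fam} (hA : OT A) (rA : Rap A) (hB : OT B) (rB : Rap B) (hY : OT Y) :
    bil A B (trn J Y) + β A B (trn J Y) =
      ∑ a ∈ Ti J, (bil A B (tf a) + β A B (tf a)) * pair Y (tf a) := by
  obtain ⟨G, hG, hG1, hG2⟩ := h.range A B hA rA hB rB
  have e1 : ∀ Z, OT Z → Rap Z → bil A B Z + β A B Z = pair (BB A B) Z + pair G Z :=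
    fun Z hZ hZ1 => by rw [bil_eq_pair rA rB hZ1 hZ, hG2 Z hZ hZ1]
  rw [e1 _ (trn_ot J hY) (trn_rap J Y), pair_ex J (BB_ot hA hB) hY, pair_ex J hG hY,
    ← Finset.sum_add_distrib]
  refine Finset.sum_congr rfl fun a _ => ?_
  rw [e1 _ (tf_ot a) (fin_rap (tf_fin a))]
  ring

end Pool.Agent.K1H52.NU
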