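import Pool.Agent.K1H52.NU.Wsi

/-!
Solutions whose amplitudes are differentiable at every time satisfy the integrated equation.
-/

open Set Filter Topology MeasureTheory
open scoped ENNReal

set_option autoImplicit false

namespace Pool.Agent.K1H52.NU

open Pool.Agent.Y5 Pool.Agent.Y5.D Pool.Agent.Y5.E Pool.Agent.K1H54.LO Pool.Agent.K1H54.L2
  Pool.Agent.K1H54.NU Pool.Agent.K1H45.NU
open Pool.Agent.Y301.G (wt wt_sum Bd)
open Pool.Agent.K1H17.UN (tst tst_ot tst_fin pr pr_orth pair_tst_pr ee inner_eq inner_ee ot_sub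
  rap_sub fin_rap A1_one l2_nonneg A1_le l2_le wt_nonneg)
open Pool.Agent.K1H30.OP (sq0 sum1)

lemma energy_le {D : Z3 → ℝ} {V : ℝ → Fam} (h0 : ∑' k, ‖V 0 k‖ₑ ^ 2 ≠ ⊤) (hE : FEI D V 0)
    {t : ℝ} (ht : 0 ≤ t) :
    Summable (fun k => ‖V t k‖ ^ 2) ∧ ∑' k, ‖V t k‖ ^ 2 ≤ ∑' k, ‖V 0 k‖ ^ 2 := by
  have h1 := hE t ht
  have h2 : ∑' k, ‖V t k‖ₑ ^ 2 ≠ ⊤ := ((le_self_add.trans h1).trans_lt h0.lt_top).ne
  obtain ⟨s0, e0⟩ := fin_sq h0
  obtain ⟨st, et⟩ := fin_sq h2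
  refine ⟨st, ?_⟩
  have h3 := le_self_add.trans h1
  rw [et, e0] at h3
  exact (ENNReal.ofReal_le_ofReal_iff (tsum_nonneg fun _ => sq_nonneg _)).1 h3

lemma l2_trn_sq {V : Fam} (sV : Summable fun k => ‖V k‖ ^ 2) (K : ℕ) :
    l2 (trn K V) ^ 2 ≤ ∑' k, ‖V k‖ ^ 2 := by
  rw [l2_sq]
  refine (sq0 (trn_rap K V)).tsum_le_tsum (fun k => ?_) sV
  by_cases hk : k ∈ Fb K
  · rw [trn_in V hk]
  · rw [trn_out V hk, norm_zero]
    simp

/-- the bound of the nonlinear terms -/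
lemma L_bound {C : ℝ} {n : Fam → Fam → Fam → ℝ} (h : Tri C n) {V Z : Fam} (hV : OT V)
    (sV : Summable fun k => ‖V k‖ ^ 2) (hZ : OT Z) (rZ : Rap Z) {e₀ : ℝ}
    (he : ∑' k, ‖V k‖ ^ 2 ≤ e₀) {L : ℝ}
    (hL : Tendsto (fun K : ℕ => n (trn K V) (trn K V) Z) atTop (𝓝 L)) :
    |L| ≤ C * (A1 1 Z * e₀) := by
  refine le_of_tendsto hL.abs (Eventually.of_forall fun K => ?_)
  have oK := trn_ot K hV
  have rK := trn_rap K V
  rw [h.skew _ _ _ oK rK oK rK hZ rZ, abs_neg]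
  refine (h.low _ _ _ oK rK hZ rZ oK rK).trans (mul_le_mul_of_nonneg_left ?_ h.C0)
  have h1 := (l2_trn_sq sV K).trans he
  have h2 := Pool.Agent.K1H30.OP.A1_nonneg 1 Z
  calc l2 (trn K V) * A1 1 Z * l2 (trn K V) = A1 1 Z * l2 (trn K V) ^ 2 := by ring
    _ ≤ A1 1 Z * e₀ := mul_le_mul_of_nonneg_left h1 h2

lemma lp_bound {D : Z3 → ℝ} (hD : ∀ k, 0 ≤ D k) {V Z : Fam} (sV : Summable fun k => ‖V k‖ ^ 2)
    (hZ : {k | Z k ≠ 0}.Finite) {e₀ : ℝ} (he : ∑' k, ‖V k‖ ^ 2 ≤ e₀) :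
    |lpD D V Z| ≤ √e₀ * ∑' k, D k * ‖Z k‖ := by
  have s1 : Summable fun k => D k * ‖Z k‖ :=
    summable_of_hasFiniteSupport (hZ.subset fun k hk => by
      intro h0
      apply hk
      show D k * ‖Z k‖ = 0
      rw [h0, norm_zero, mul_zero])
  have h5 : ∀ k, ‖D k * (inner ℝ (V k) (Z k) : ℝ)‖ ≤ √e₀ * (D k * ‖Z k‖) := by
    intro k
    have h6 : ‖V k‖ ≤ √e₀ := by
      refine Real.le_sqrt_of_sq_le ?_
      exact (sV.le_tsum k fun _ _ => sq_nonneg _).trans he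
    rw [norm_mul, Real.norm_of_nonneg (hD k)]
    calc D k * ‖(inner ℝ (V k) (Z k) : ℝ)‖
        ≤ D k * (‖V k‖ * ‖Z k‖) := mul_le_mul_of_nonneg_left (norm_inner_le_norm _ _) (hD k)
      _ = ‖V k‖ * (D k * ‖Z k‖) := by ring
      _ ≤ √e₀ * (D k * ‖Z k‖) :=
          mul_le_mul_of_nonneg_right h6 (mul_nonneg (hD k) (norm_nonneg _))
  have h7 := tsum_of_norm_bounded (s1.mul_left (√e₀)).hasSum h5
  rw [tsum_mul_left] at h7
  exact h7

/-- Differentiability at all times implies the integrated equation. -/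
theorem flhi_of {s δ C : ℝ} {Q : Z3 → Prop} {D : Z3 → ℝ} {β : Fam → Fam → Fam → ℝ}
    (hD : ∀ k, 0 ≤ D k) (hP : FPert s δ C Q β) {V : ℝ → Fam} (hV : FLH D β V) : FLHi D β V where
  ot := hV.ot
  fin := hV.fin
  e0 := hV.e0
  es := hV.es
  eqn := by
    intro Z hZ hZf
    have tri := tri_of hP
    have hex : ∀ t : ℝ, ∃ L : ℝ, 0 ≤ t →
        Tendsto (fun K : ℕ => bil (trn K (V t)) (trn K (V t)) Z +
          β (trn K (V t)) (trn K (V t)) Z) atTop (𝓝 L) ∧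
        HasDerivWithinAt (fun τ => pair (V τ) Z) (-lpD D (V t) Z + L) (Ici 0) t := by
      intro t
      by_cases h : 0 ≤ t
      · obtain ⟨L, hL⟩ := hV.eqn Z hZ hZf t h
        exact ⟨L, fun _ => hL⟩
      · exact ⟨0, fun h' => absurd h' h⟩
    choose L hL using hex
    refine ⟨L, (ae_restrict_iff' measurableSet_Ioi).2 (Eventually.of_forall fun τ hτ =>
      (hL τ (le_of_lt hτ)).1), fun t ht => ?_⟩
    have hder : ∀ x, 0 < x → HasDerivAt (fun τ => pair (V τ) Z) (-lpD D (V x) Z + L x) x :=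
      fun x hx => (hL x hx.le).2.hasDerivAt (Ici_mem_nhds hx)
    have hmeas : AEStronglyMeasurable (fun τ => -lpD D (V τ) Z + L τ)
        (volume.restrict (Ioc 0 t)) := by
      have h1 : Measurable (deriv fun τ => pair (V τ) Z) := measurable_deriv _
      refine h1.aestronglyMeasurable.congr ?_
      refine (ae_restrict_iff' measurableSet_Ioc).2 (Eventually.of_forall fun x hx => ?_)
      exact (hder x hx.1).deriv
    have hint : IntervalIntegrable (fun τ => -lpD D (V τ) Z + L τ) volume 0 t := by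
      rw [intervalIntegrable_iff_integrableOn_Ioc_of_le ht]
      refine IntegrableOn.of_bound measure_Ioc_lt_top hmeas
        (√(∑' k, ‖V 0 k‖ ^ 2) * (∑' k, D k * ‖Z k‖) +
          (2 * Real.pi + |C|) * (A1 1 Z * ∑' k, ‖V 0 k‖ ^ 2))
        ((ae_restrict_iff' measurableSet_Ioc).2 (Eventually.of_forall fun x hx => ?_))
      obtain ⟨sx, hx1⟩ := energy_le hV.fin hV.e0 hx.1.le
      have h1 := lp_bound hD sx hZf hx1
      have h2 := L_bound tri (hV.ot x hx.1.le) sx hZ (fin_rap hZf) hx1 (hL x hx.1.le).1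
      refine (norm_add_le _ _).trans (add_le_add ?_ h2)
      rw [norm_neg]
      exact h1
    refine ⟨hint, ?_⟩
    have h3 := intervalIntegral.integral_eq_sub_of_hasDerivAt_of_le ht
      (f := fun τ => pair (V τ) Z) (f' := fun τ => -lpD D (V τ) Z + L τ)
      (fun x hx => ((hL x hx.1).2.continuousWithinAt).mono Icc_subset_Ici_self)
      (fun x hx => hder x hx.1) hint
    rw [h3]
    ring

theorem t_FLHI : S_FLHI :=
  fun _ _ _ _ _ _ _ hD hP hV => flhi_of hD.nonneg hP hV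

end Pool.Agent.K1H52.NU
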